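import Pool.Agent.H37Thin.Good

/-!
# The bad edges between a finished cluster and a neighbour have small total weight

This is the good edge lemma in quantitative form: the bad edges between `P` and `Q` have total weight
less than `κ0`, so all the rest of the weight is carried by good edges.
-/

set_option autoImplicit false

namespace Pool.Agent.H89Q

open Finset Pool.Agent.H99Thin Pool.Agent.H37Thin

section

variable {V ι : Type} [Fintype V] [DecidableEq V] [PartialOrder ι]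
variable {m : V → V → ℝ} {top : V → ι} {al : V → ι → Prop} {w : ℕ}

/-- the edge `p q` is bad for some lower node avoided by `P` or by `Q` -/
def BadE (m : V → V → ℝ) (top : V → ι) (al : V → ι → Prop) (s κ : ℝ) (x : ι) (P Q : Finset V)
    (f : V × V) : Prop :=
  0 < m f.1 f.2 ∧ ∃ y, y < x ∧ ((∀ v ∈ P, ¬ Dn al y v) ∨ ∀ v ∈ Q, ¬ Dn al y v) ∧
    Bad m top al s κ x y f.1 f.2

open Classical in
/-- **The bad edges have small weight.** -/
theorem bad_lt (hT : TD m top al w) {s κ κ0 : ℝ} (hs : 0 < s)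
    (hκ : (3 : ℝ) ^ (w + 1) * s ≤ κ) (hκ0 : (2 : ℝ) ^ (w + 3) * 3 ^ (w + 1) * s ≤ κ0) {x : ι}
    {P Q : Finset V} (hfin : ∀ p ∈ P, top p ≤ x)
    (hP : ∀ (y : ι) (N : Finset V), (∀ v ∈ P, ¬ Dn al y v) →
      E (mr m top x (some y)) N Nᶜ < s → (∀ v ∈ P, v ∈ N) ∨ ∀ v ∈ P, v ∉ N)
    (hQ : ∀ (y : ι) (N : Finset V), (∀ v ∈ Q, ¬ Dn al y v) →
      E (mr m top x (some y)) N Nᶜ < s →
        (∀ v ∈ Q, Dn al x v → v ∈ N) ∨ ∀ v ∈ Q, Dn al x v → v ∉ N) :
    ∑ f ∈ (P ×ˢ Q).filter (BadE m top al s κ x P Q), m f.1 f.2 < κ0 := by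
  classical
  by_contra hcon
  push Not at hcon
  set F0 := (P ×ˢ Q).filter (BadE m top al s κ x P Q) with hF0
  -- orientation of the bad edges
  have hor : ∀ f ∈ F0, ∃ (c : Bool) (y : ι)
      (N' Q' : Finset V), y < x ∧
      (c = true → (∀ v ∈ P, ¬ Dn al y v) ∧ BD m top al s κ x f.2 y N' Q' ∧ ∀ v ∈ P, v ∉ N') ∧
      (c = false → (∀ v ∈ Q, ¬ Dn al y v) ∧ BD m top al s κ x f.1 y N' Q' ∧
        ∀ v ∈ Q, Dn al x v → v ∉ N') := by
    intro f hf
    rw [hF0, mem_filter, mem_product] at hf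
    obtain ⟨⟨hf1, hf2⟩, hfpos, y, hyx, hav, N0, Q0, Q1, hp, hq, hdis, hsub, hcut, hr0, hr1⟩ := hf
    by_cases hav' : ∀ v ∈ P, ¬ Dn al y v
    · have h1 : ∀ v ∈ P, v ∉ N0 := (hP y N0 hav' hcut).resolve_left fun h =>
        disjoint_left.1 hdis hp (h f.1 hf1)
      refine ⟨true, y, N0.filter (fun v => ¬ top v ≤ y), Q1, hyx, fun _ => ⟨hav', ⟨hq, ?_, ?_, ?_,
        hr1⟩, fun v hv h => h1 v hv (mem_filter.1 h).1⟩, fun h => absurd h (by simp)⟩
      · exact fun v hv => mem_filter.2 ⟨hsub hv, hr1.up v hv⟩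
      · exact fun v hv => (mem_filter.1 hv).2
      · refine lt_of_le_of_lt (cut_filter_le hT N0 _ (filter_subset _ _) fun v hv hv' => ?_) hcut
        by_contra h
        exact hv' (mem_filter.2 ⟨hv, h⟩)
    · have hav2 := hav.resolve_left hav'
      have h1 : ∀ v ∈ Q, Dn al x v → v ∈ N0 := (hQ y N0 hav2 hcut).resolve_right fun h =>
        h f.2 hf2 (hr1.dn f.2 hq) (hsub hq)
      refine ⟨false, y, N0ᶜ.filter (fun v => ¬ top v ≤ y), Q0, hyx, fun h => absurd h (by simp),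
        fun _ => ⟨hav2, ⟨hp, ?_, ?_, ?_, hr0⟩, fun v hv hd h =>
          (mem_compl.1 (mem_filter.1 h).1) (h1 v hv hd)⟩⟩
      · exact fun v hv => mem_filter.2 ⟨mem_compl.2 (disjoint_left.1 hdis hv), hr0.up v hv⟩
      · exact fun v hv => (mem_filter.1 hv).2
      · refine lt_of_le_of_lt (cut_filter_le hT N0ᶜ _ (filter_subset _ _) fun v hv hv' => ?_) ?_
        · by_contra h
          exact hv' (mem_filter.2 ⟨hv, h⟩)
        · rw [compl_compl, E_comm (mr_symm hT x (some y))]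
          exact hcut
  have : Nonempty ι := ⟨x⟩
  choose! c y N Q' hyx htrue hfalse using hor
  set Xx : Finset V := univ.filter (fun v => al v x) with hXx
  have hXc : Xx.card ≤ w + 1 := hT.wd x Xx fun v hv => (mem_filter.1 hv).2
  obtain ⟨⟨c0, X0⟩, -, hcol⟩ := exists_le_sum_fiber_of_maps_to_of_nsmul_le_sum
    (s := F0) (t := (univ : Finset Bool) ×ˢ Xx.powerset)
    (f := fun f => (c f, (N f).filter (fun v => al v x))) (w := fun f => m f.1 f.2)
    (b := 2 * (3 : ℝ) ^ (w + 1) * s)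
    (fun f _ => mem_product.2 ⟨mem_univ _, mem_powerset.2 fun v hv =>
      mem_filter.2 ⟨mem_univ _, (mem_filter.1 hv).2⟩⟩)
    ⟨(true, ∅), mem_product.2 ⟨mem_univ _, mem_powerset.2 (empty_subset _)⟩⟩
    (by
      refine le_trans ?_ (hκ0.trans hcon)
      rw [card_product, card_powerset, card_univ, Fintype.card_bool, nsmul_eq_mul]
      push_cast
      have h1 : (2 : ℝ) ^ Xx.card ≤ 2 ^ (w + 1) := pow_le_pow_right₀ (by norm_num) hXc
      have h2 : (0 : ℝ) < 3 ^ (w + 1) * s := by positivity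
      calc (2 : ℝ) * 2 ^ Xx.card * (2 * 3 ^ (w + 1) * s)
          ≤ 2 * 2 ^ (w + 1) * (2 * 3 ^ (w + 1) * s) := by
            apply mul_le_mul_of_nonneg_right _ (by positivity)
            linarith
        _ = 2 ^ (w + 3) * 3 ^ (w + 1) * s := by ring)
  set F := F0.filter (fun f => (c f, (N f).filter (fun v => al v x)) = (c0, X0)) with hF
  have hFc : ∀ f ∈ F, c f = c0 := fun f hf => (Prod.mk.inj (mem_filter.1 hf).2).1
  have hFX : ∀ f ∈ F, (N f).filter (fun v => al v x) = X0 := fun f hf =>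
    (Prod.mk.inj (mem_filter.1 hf).2).2
  have hFP : ∀ f ∈ F, f.1 ∈ P ∧ f.2 ∈ Q ∧ 0 < m f.1 f.2 := by
    intro f hf
    have h1 := (mem_filter.1 hf).1
    rw [hF0, mem_filter, mem_product] at h1
    exact ⟨h1.1.1, h1.1.2, h1.2.1⟩
  have htr : ∀ f ∈ F, ∀ g ∈ F, ∀ v, al v x → v ∈ N f → v ∈ N g := by
    intro f hf g hg v hal hv
    have h1 : v ∈ (N f).filter (fun v => al v x) := mem_filter.2 ⟨hv, hal⟩
    rw [hFX f hf, ← hFX g hg] at h1
    exact (mem_filter.1 h1).1
  cases c0 with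
  | true =>
    have h1 := fun f (hf : f ∈ F) => htrue f (mem_filter.1 hf).1 (hFc f hf)
    have h2 := core_lt hT hs hκ (x := x) (fun f : V × V => f.1) (fun f => f.2) y N Q' F
      (fun f _ g _ h h' => Prod.ext h h') (fun f hf => (h1 f hf).2.1)
      (fun f hf => Or.inl (hfin f.1 (hFP f hf).1))
      (fun f hf g hg hed => by
        rcases hed with h | h
        · exact (h1 f hf).1 g.1 (hFP g hg).1 (hT.Dn_of_top h)
        · exact (h1 f hf).1 g.1 (hFP g hg).1 (hT.Dn_of_adj' (hFP g hg).2.2 h))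
      (fun f hf g hg => (h1 f hf).2.2 g.1 (hFP g hg).1) htr
    exact absurd hcol (not_le_of_gt h2)
  | false =>
    have h1 := fun f (hf : f ∈ F) => hfalse f (mem_filter.1 hf).1 (hFc f hf)
    have h2 := core_lt hT hs hκ (x := x) (fun f : V × V => f.2) (fun f => f.1) y N Q' F
      (fun f _ g _ h h' => Prod.ext h' h) (fun f hf => (h1 f hf).2.1)
      (fun f hf => Or.inr (hfin f.1 (hFP f hf).1))
      (fun f hf g hg hed => by
        rcases hed with h | h
        · exact (h1 f hf).1 g.2 (hFP g hg).2.1 (hT.Dn_of_top h)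
        · exact (h1 f hf).1 g.2 (hFP g hg).2.1 (hT.Dn_of_adj (hFP g hg).2.2 h))
      (fun f hf g hg => (h1 f hf).2.2 g.2 (hFP g hg).2.1
        (hT.Dn_of_adj (hFP g hg).2.2 (hfin g.1 (hFP g hg).1))) htr
    have h3 : ∑ f ∈ F, m f.2 f.1 = ∑ f ∈ F, m f.1 f.2 := sum_congr rfl fun f _ => hT.symm _ _
    rw [h3] at h2
    exact absurd hcol (not_le_of_gt h2)

end

end Pool.Agent.H89Q
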