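import Pool.Agent.H85.Thin.Part

/-!
# Sets with large inner degrees

`Good w δ S`: every vertex of `S` has at least the fraction `δ` of its degree in `S`.
Every set `U` has a largest good subset, and the vertices of the rest send almost all their edges to each
other and to the outside of `U`.
-/

set_option autoImplicit false
set_option linter.unusedSectionVars false

namespace Pool.Agent.H89Q

open Finset Pool.Agent.H85.Thin

section

variable {V : Type} [Fintype V] [DecidableEq V] {w : V → V → ℝ}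

/-- every vertex of `S` has at least the fraction `δ` of its degree in `S` -/
def Good (w : V → V → ℝ) (δ : ℝ) (S : Finset V) : Prop :=
  ∀ v ∈ S, δ * E w {v} univ ≤ E w {v} S

/-- the largest good subset -/
theorem exists_max_good (hw : ∀ u v, 0 ≤ w u v) (δ : ℝ) (U : Finset V) :
    ∃ G ⊆ U, Good w δ G ∧ ∀ G' ⊆ U, Good w δ G' → G' ⊆ G := by
  classical
  refine ⟨(U.powerset.filter fun S => Good w δ S).biUnion id, ?_, ?_, ?_⟩
  · intro v hv
    rw [mem_biUnion] at hv
    obtain ⟨S, hS, hv⟩ := hv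
    exact mem_powerset.1 (mem_filter.1 hS).1 hv
  · intro v hv
    rw [mem_biUnion] at hv
    obtain ⟨S, hS, hv⟩ := hv
    refine ((mem_filter.1 hS).2 v hv).trans (E_mono hw subset_rfl ?_)
    intro u hu
    exact mem_biUnion.2 ⟨S, hS, hu⟩
  · intro G' h1 h2 v hv
    exact mem_biUnion.2 ⟨G', mem_filter.2 ⟨mem_powerset.2 h1, h2⟩, hv⟩

theorem E_insert_left {X : Finset V} {v : V} (h : v ∉ X) (Y : Finset V) :
    E w (insert v X) Y = E w {v} Y + E w X Y := by
  rw [insert_eq, E_union_left (disjoint_singleton_left.2 h)]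

theorem E_insert_right {X : Finset V} {v : V} (h : v ∉ X) (Y : Finset V) :
    E w Y (insert v X) = E w Y {v} + E w Y X := by
  rw [insert_eq, E_union_right _ (disjoint_singleton_left.2 h)]

theorem E_self (h0 : ∀ v, w v v = 0) (v : V) : E w {v} {v} = 0 := by
  rw [E_singleton, sum_singleton, h0]

/-- a vertex outside of the largest good subset has small degree to it -/
theorem max_good_deg (hw : ∀ u v, 0 ≤ w u v) {δ : ℝ} {U G : Finset V} (hG : Good w δ G)
    (hGU : G ⊆ U) (hmax : ∀ G' ⊆ U, Good w δ G' → G' ⊆ G) {N : Finset V} (hN : N ⊆ U \ G)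
    (hne : N.Nonempty) : ∃ v ∈ N, E w {v} (G ∪ N) < δ * E w {v} univ := by
  by_contra hcon
  push Not at hcon
  have h1 : Good w δ (G ∪ N) := by
    intro v hv
    rcases mem_union.1 hv with hv | hv
    · exact (hG v hv).trans (E_mono hw subset_rfl subset_union_left)
    · exact hcon v hv
  have h2 := hmax (G ∪ N) (union_subset hGU (hN.trans sdiff_subset)) h1
  obtain ⟨v, hv⟩ := hne
  exact (mem_sdiff.1 (hN hv)).2 (h2 (mem_union_right _ hv))

theorem peel (hw : ∀ u v, 0 ≤ w u v) (hs : ∀ u v, w u v = w v u) (h0 : ∀ v, w v v = 0) {δ : ℝ}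
    {U G : Finset V} (hG : Good w δ G) (hGU : G ⊆ U)
    (hmax : ∀ G' ⊆ U, Good w δ G' → G' ⊆ G) (n : ℕ) : ∀ N : Finset V, N.card = n → N ⊆ U \ G →
    E w N N + 2 * E w N G ≤ 2 * δ * E w N univ := by
  induction n with
  | zero =>
    intro N hN _
    rw [card_eq_zero.1 hN]
    simp [E_empty_left]
  | succ n ih =>
    intro N hN hNU
    obtain ⟨v, hv, hlt⟩ := max_good_deg hw hG hGU hmax hNU (card_pos.1 (by omega))
    have h1 := ih (N.erase v) (by rw [card_erase_of_mem hv]; omega)
      ((erase_subset _ _).trans hNU)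
    have hni : v ∉ N.erase v := notMem_erase v N
    have hNe : insert v (N.erase v) = N := insert_erase hv
    have e1 : E w N N = E w (N.erase v) (N.erase v) + 2 * E w {v} (N.erase v) := by
      conv_lhs => rw [← hNe]
      rw [E_insert_left hni, E_insert_right hni, E_insert_right hni, E_self h0,
        E_comm hs (N.erase v) {v}]
      ring
    have e2 : E w N G = E w {v} G + E w (N.erase v) G := by
      conv_lhs => rw [← hNe]
      rw [E_insert_left hni]
    have e3 : E w N univ = E w {v} univ + E w (N.erase v) univ := by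
      conv_lhs => rw [← hNe]
      rw [E_insert_left hni]
    have hd : Disjoint G N := by
      rw [disjoint_left]
      exact fun u hu hu' => (mem_sdiff.1 (hNU hu')).2 hu
    have e4 : E w {v} (G ∪ N) = E w {v} G + E w {v} (N.erase v) := by
      rw [E_union_right _ hd]
      conv_lhs => rw [← hNe]
      rw [E_insert_right hni, E_self h0, zero_add]
    rw [e4] at hlt
    rw [e1, e2, e3]
    linarith

/-- one level: the volume drops by the factor `2 * δ` -/
theorem level (hw : ∀ u v, 0 ≤ w u v) (hs : ∀ u v, w u v = w v u) (h0 : ∀ v, w v v = 0) {δ : ℝ}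
    (hδ1 : δ ≤ 1 / 4)
    {U G : Finset V} (hG : Good w δ G) (hGU : G ⊆ U)
    (hmax : ∀ G' ⊆ U, Good w δ G' → G' ⊆ G) {N N1 : Finset V} (hN : N ⊆ U \ G) (hN1 : N1 ⊆ N)
    (hnb : ∀ v ∈ N1, ∀ u, u ∉ G → 0 < w v u → u ∈ N) :
    E w N1 univ ≤ 2 * δ * E w N univ := by
  have h1 := peel hw hs h0 hG hGU hmax _ N1 rfl (hN1.trans hN)
  have h2 := peel hw hs h0 hG hGU hmax _ N rfl hN
  have hd : Disjoint N1 G := by
    rw [disjoint_left]
    exact fun u hu hu' => (mem_sdiff.1 (hN (hN1 hu))).2 hu'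
  have e1 : E w N1 univ = E w N1 N1 + E w N1 G + E w N1 (N \ N1) := by
    have h3 : E w N1 univ = E w N1 (N ∪ G) := by
      rw [E_sum_left N1 univ, E_sum_left N1 (N ∪ G)]
      refine sum_congr rfl fun v hv => ?_
      rw [E_singleton, E_singleton]
      symm
      refine sum_subset (subset_univ _) fun u _ hu => ?_
      by_contra h
      have hpos : 0 < w v u := lt_of_le_of_ne (hw v u) (Ne.symm h)
      rw [mem_union, not_or] at hu
      exact hu.1 (hnb v hv u hu.2 hpos)
    have hd2 : Disjoint N G := by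
      rw [disjoint_left]
      exact fun u hu hu' => (mem_sdiff.1 (hN hu)).2 hu'
    rw [h3, E_union_right _ hd2, E_split_right hN1]
    ring
  have e2 : 2 * E w N1 (N \ N1) ≤ E w N N := by
    have h3 : E w N N = E w N1 N1 + E w N1 (N \ N1) + (E w (N \ N1) N1 + E w (N \ N1) (N \ N1)) := by
      rw [E_split_left hN1 N, E_split_right hN1 N1, E_split_right hN1 (N \ N1)]
    have h4 := E_comm hs (N \ N1) N1
    have h5 := E_nonneg hw N1 N1
    have h6 := E_nonneg hw (N \ N1) (N \ N1)
    linarith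
  have h3 := E_nonneg hw N G
  have h4 := E_nonneg hw N1 G
  have h5 := E_nonneg hw N1 N1
  have h6 := E_nonneg hw N1 univ
  -- (1 - 2 δ) vol N1 ≤ E N1 (N \ N1) ≤ δ vol N
  have h7 : E w N1 N1 + E w N1 G ≤ 2 * δ * E w N1 univ := by linarith
  have h8 : 2 * δ * E w N1 univ ≤ 1 / 2 * E w N1 univ := by
    apply mul_le_mul_of_nonneg_right _ h6
    linarith
  linarith

/-- **A chain of levels.** -/
theorem chain (hw : ∀ u v, 0 ≤ w u v) (hs : ∀ u v, w u v = w v u) (h0 : ∀ v, w v v = 0) {δ κ μ : ℝ}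
    (hδ : 0 ≤ δ) (hδ1 : δ ≤ 1 / 4) (hκ : 0 < κ) (hk : ∀ v, κ ≤ E w {v} univ)
    (hμ : ∀ u v, w u v ≤ μ) (hμ0 : 0 ≤ μ)
    {U G : Finset V} (hG : Good w δ G) (hGU : G ⊆ U)
    (hmax : ∀ G' ⊆ U, Good w δ G' → G' ⊆ G) (N : ℕ → Finset V) (hN : ∀ i, N i ⊆ U \ G)
    (hanti : ∀ i, N (i + 1) ⊆ N i)
    (hnb : ∀ i, ∀ v ∈ N (i + 1), ∀ u, u ∉ G → 0 < w v u → u ∈ N i) (j : ℕ) {v : V}
    (hv : v ∈ N (j + 1)) :
    κ ^ 2 ≤ 4 * μ * ((2 * δ) ^ j * E w (N 0 \ N 1) univ) := by
  have h1 : ∀ i, E w (N i) univ ≤ (2 * δ) ^ i * E w (N 0) univ := by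
    intro i
    induction i with
    | zero => simp
    | succ i ih =>
      have h2 := level hw hs h0 hδ1 hG hGU hmax (hN i) (hanti i) (hnb i)
      have h3 := mul_le_mul_of_nonneg_left ih (mul_nonneg zero_le_two hδ)
      refine h2.trans (h3.trans (le_of_eq ?_))
      rw [pow_succ]
      ring
  have h2 : E w (N 0) univ ≤ 2 * E w (N 0 \ N 1) univ := by
    have h3 := level hw hs h0 hδ1 hG hGU hmax (hN 0) (hanti 0) (hnb 0)
    have h4 := E_split_left (w := w) (hanti 0) univ
    have h5 := E_nonneg hw (N 0) univ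
    have h6 : 2 * δ * E w (N 0) univ ≤ 1 / 2 * E w (N 0) univ := by
      apply mul_le_mul_of_nonneg_right _ h5
      linarith
    linarith
  -- the degree of `v`
  have hvU := hN _ hv
  have h3 : E w {v} G < δ * E w {v} univ := by
    obtain ⟨u, hu, hlt⟩ := max_good_deg hw hG hGU hmax (N := {v}) (singleton_subset_iff.2 hvU)
      (singleton_nonempty v)
    rw [mem_singleton] at hu
    rw [hu] at hlt
    exact lt_of_le_of_lt (E_mono hw subset_rfl subset_union_left) hlt
  have h4 : E w {v} univ ≤ E w {v} G + E w {v} (N j) := by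
    have h5 : E w {v} univ = E w {v} (G ∪ N j) := by
      rw [E_singleton, E_singleton]
      symm
      refine sum_subset (subset_univ _) fun u _ hu => ?_
      by_contra h
      have hpos : 0 < w v u := lt_of_le_of_ne (hw v u) (Ne.symm h)
      rw [mem_union, not_or] at hu
      exact hu.2 (hnb j v hv u hu.1 hpos)
    rw [h5, E_union_right]
    rw [disjoint_left]
    exact fun u hu hu' => (mem_sdiff.1 (hN j hu')).2 hu
  have h5 : E w {v} (N j) ≤ μ * ((N j).card : ℝ) := by
    rw [E_singleton]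
    refine (sum_le_sum fun u _ => hμ v u).trans (le_of_eq ?_)
    rw [sum_const, nsmul_eq_mul, mul_comm]
  have h6 := card_le_vol hk (N j)
  have h7 := hk v
  have h8 : κ / 2 ≤ μ * ((N j).card : ℝ) := by
    have h9 : δ * E w {v} univ ≤ 1 / 4 * E w {v} univ := by
      apply mul_le_mul_of_nonneg_right hδ1
      linarith
    linarith
  have h9 : κ * (κ / 2) ≤ μ * E w (N j) univ := by
    have h10 := mul_le_mul_of_nonneg_left h8 hκ.le
    have h11 := mul_le_mul_of_nonneg_left h6 hμ0
    nlinarith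
  have h10 : E w (N j) univ ≤ (2 * δ) ^ j * (2 * E w (N 0 \ N 1) univ) :=
    (h1 j).trans (mul_le_mul_of_nonneg_left h2 (pow_nonneg (by linarith) j))
  have h11 := mul_le_mul_of_nonneg_left h10 hμ0
  nlinarith

end

end Pool.Agent.H89Q
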