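import Pool.Agent.H85.Thin.Part

/-!
# Expanding partitions of small blocks
-/

set_option autoImplicit false
set_option linter.unusedSectionVars false

namespace Pool.Agent.H89Q

open Finset Pool.Agent.H85.Thin

section

variable {V : Type} [Fintype V] [DecidableEq V] {w : V → V → ℝ}

/-- few disjoint sparse sets give a partition into few expanding parts (from the proof of
`FewSparseSets`) -/
theorem exists_expanding [Nonempty V] {κ ρ : ℝ} (hκ : 0 < κ) (hk : ∀ v, κ ≤ E w {v} univ)
    (hw : ∀ u v, 0 ≤ w u v) (hs : ∀ u v, w u v = w v u) (hρ : 0 < ρ) (hρ1 : ρ ≤ 1) {r : ℕ}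
    (hexp : ∀ S : Fin (r + 1) → Finset V, (∀ i, (S i).Nonempty) →
      (∀ i j, i ≠ j → Disjoint (S i) (S j)) → ∃ i, ρ * E w (S i) univ ≤ cut w (S i)) :
    ∃ l : ℕ, l ≤ r ∧ ∃ f : V → Fin l, (∀ i, (part f i).Nonempty) ∧ ∀ i, ∀ B ⊆ part f i,
      ρ ^ 2 / (6 * ((r : ℝ) + 2) ^ 2) * E w B univ ≤ E w B (part f i \ B) ∨
      ρ ^ 2 / (6 * ((r : ℝ) + 2) ^ 2) * E w (part f i \ B) univ ≤ E w B (part f i \ B) := by
  classical
  have hr2 : (0 : ℝ) < (r : ℝ) + 2 := by positivity
  let P : ℕ → Prop := fun l => ∃ S : Fin l → Finset V, Fam w l (ρ * l / ((r : ℝ) + 2)) S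
  have hP1 : P 1 := by
    refine ⟨fun _ => univ, fun _ => Finset.univ_nonempty, fun i j hij => ?_, fun _ => ?_⟩
    · exact absurd (Subsingleton.elim i j) hij
    · have h0 : cut w (univ : Finset V) = 0 := by
        unfold Pool.Agent.H85.Thin.cut
        rw [Finset.sdiff_self]
        exact E_empty_right _
      rw [h0]
      exact mul_nonneg (by positivity) (E_nonneg hw _ _)
  have hPr : ¬ P (r + 1) := by
    rintro ⟨S, h1, h2, h3⟩
    obtain ⟨i, hi⟩ := hexp S h1 h2
    have h4 := h3 i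
    have h5 := vol_pos hκ hk (h1 i)
    have h6 : ρ * ((r + 1 : ℕ) : ℝ) / ((r : ℝ) + 2) < ρ := by
      rw [div_lt_iff₀ hr2]
      push_cast
      nlinarith
    have h7 : ρ * ((r + 1 : ℕ) : ℝ) / ((r : ℝ) + 2) * E w (S i) univ < ρ * E w (S i) univ :=
      mul_lt_mul_of_pos_right h6 h5
    linarith
  have hex : ∃ l, 1 ≤ l ∧ l ≤ r ∧ P l ∧ ¬ P (l + 1) := by
    by_contra hcon
    push Not at hcon
    apply hPr
    have : ∀ n, 1 ≤ n → n ≤ r + 1 → P n := by
      intro n hn
      induction n, hn using Nat.le_induction with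
      | base => exact fun _ => hP1
      | succ m hm ih =>
        intro h
        exact hcon m hm (by omega) (ih (by omega))
    exact this (r + 1) (by omega) le_rfl
  obtain ⟨l, hl1, hlr, hPl, hPl1⟩ := hex
  have hlR : (1 : ℝ) ≤ l := by exact_mod_cast hl1
  have hlrR : (l : ℝ) ≤ r := by exact_mod_cast hlr
  set t : ℝ := ρ * l / ((r : ℝ) + 2) with ht
  set t' : ℝ := ρ * ((l + 1 : ℕ) : ℝ) / ((r : ℝ) + 2) with ht'
  set a : ℝ := ρ / ((r : ℝ) + 2) with ha
  have ha0 : 0 < a := by positivity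
  have htt : t' - t = a := by
    rw [ht, ht', ha]
    push_cast
    ring
  have hφe : (t' - t) / 2 * a / 3 = ρ ^ 2 / (6 * ((r : ℝ) + 2) ^ 2) := by
    rw [htt, ha]
    field_simp
    norm_num
  obtain ⟨f, hne, hf⟩ := exists_partition hκ hk hw hs (by omega : 0 < l)
    (t := t) (t' := t') (a := a) (by positivity) (by linarith)
    (by
      rw [ht', div_le_one hr2]
      push_cast
      nlinarith)
    ha0
    (by
      rw [ht', ha]
      push_cast
      have : (l : ℝ) * (ρ / ((r : ℝ) + 2)) = ρ * l / ((r : ℝ) + 2) := by ring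
      rw [this]
      refine div_le_div_of_nonneg_right ?_ hr2.le
      nlinarith) hPl hPl1
  rw [hφe] at hf
  exact ⟨l, hlr, f, hne, hf⟩

/-- in a graph with few vertices there are few disjoint sparse sets -/
theorem few_sparse {κ μ : ℝ} (hκ : 0 < κ) (hk : ∀ v, κ ≤ E w {v} univ)
    (hw : ∀ u v, 0 ≤ w u v) (hμ : ∀ u v, w u v ≤ μ) {r : ℕ}
    (hr : 2 * μ * (Fintype.card V : ℝ) < ((r : ℝ) + 1) * κ) (S : Fin (r + 1) → Finset V)
    (hne : ∀ i, (S i).Nonempty) (hd : ∀ i j, i ≠ j → Disjoint (S i) (S j)) :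
    ∃ i, (1 / 2 : ℝ) * E w (S i) univ ≤ cut w (S i) := by
  classical
  by_contra hcon
  push Not at hcon
  have hμ0 : 0 ≤ μ := by
    obtain ⟨v, _⟩ := hne 0
    exact (hw v v).trans (hμ v v)
  have h1 : ∀ i, κ ≤ 2 * μ * ((S i).card : ℝ) := by
    intro i
    have h2 : ∃ v ∈ S i, E w {v} (univ \ S i) < 1 / 2 * E w {v} univ := by
      by_contra h
      push Not at h
      have h3 : 1 / 2 * E w (S i) univ ≤ cut w (S i) := by
        unfold cut
        rw [E_sum_left (S i) univ, E_sum_left (S i) (univ \ S i), mul_sum]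
        exact sum_le_sum h
      exact absurd (hcon i) (not_lt.2 h3)
    obtain ⟨v, hv, hv'⟩ := h2
    have h3 := E_split (w := w) {v} (S i)
    have h4 : E w {v} (S i) ≤ μ * ((S i).card : ℝ) := by
      rw [E_singleton]
      refine (sum_le_sum fun u _ => hμ v u).trans (le_of_eq ?_)
      rw [sum_const, nsmul_eq_mul, mul_comm]
    have h5 := hk v
    linarith
  have h2 : ((r : ℝ) + 1) * κ ≤ ∑ i, 2 * μ * ((S i).card : ℝ) := by
    have h3 := sum_le_sum fun i (_ : i ∈ (univ : Finset (Fin (r + 1)))) => h1 i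
    rw [sum_const, card_univ, Fintype.card_fin, nsmul_eq_mul] at h3
    push_cast at h3
    exact h3
  rw [← mul_sum] at h2
  have h3 : ∑ i, ((S i).card : ℝ) ≤ Fintype.card V := by
    have h4 : ∑ i, (S i).card ≤ Fintype.card V := by
      rw [← card_biUnion fun i _ j _ hij => hd i j hij]
      exact card_le_univ _
    exact_mod_cast h4
  have h4 := mul_le_mul_of_nonneg_left h3 (by positivity : 0 ≤ 2 * μ)
  linarith

end

section

variable {V : Type} [Fintype V] [DecidableEq V] {w : V → V → ℝ}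

/-- the weights of a subset -/
theorem E_subtype (P : V → Prop) [DecidablePred P] (X Y : Finset {v // P v}) :
    E (fun u v : {v // P v} => w u v) X Y =
      E w (X.map (Function.Embedding.subtype _)) (Y.map (Function.Embedding.subtype _)) := by
  unfold E
  rw [sum_map]
  refine sum_congr rfl fun u _ => ?_
  rw [sum_map]
  rfl

/-- **A block with few vertices has a partition into few expanding parts.** -/
theorem block_expanding {κ μ : ℝ} (hκ : 0 < κ) (hk : ∀ v, κ ≤ E w {v} univ)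
    (hw : ∀ u v, 0 ≤ w u v) (hs : ∀ u v, w u v = w v u) (hμ : ∀ u v, w u v ≤ μ)
    (X : Finset V) {δ : ℝ} (hδ : 0 < δ) (hX : ∀ v ∈ X, δ * E w {v} univ ≤ E w {v} X) {r : ℕ}
    (hr : 2 * μ * (X.card : ℝ) < ((r : ℝ) + 1) * (δ * κ)) :
    ∃ l : ℕ, l ≤ r ∧ ∃ f : {v // v ∈ X} → Fin l, Function.Surjective f ∧
      ∀ i, ∀ B ⊆ X.filter (fun v => ∃ h : v ∈ X, f ⟨v, h⟩ = i),
      δ / (24 * ((r : ℝ) + 2) ^ 2) * E w B univ ≤
        E w B (X.filter (fun v => ∃ h : v ∈ X, f ⟨v, h⟩ = i) \ B) ∨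
      δ / (24 * ((r : ℝ) + 2) ^ 2) *
          E w (X.filter (fun v => ∃ h : v ∈ X, f ⟨v, h⟩ = i) \ B) univ ≤
        E w B (X.filter (fun v => ∃ h : v ∈ X, f ⟨v, h⟩ = i) \ B) := by
  classical
  rcases X.eq_empty_or_nonempty with hXe | hXn
  · subst hXe
    refine ⟨0, Nat.zero_le _, fun v => absurd v.2 (notMem_empty _), fun i => i.elim0,
      fun i => i.elim0⟩
  have hne : Nonempty {v // v ∈ X} := by
    obtain ⟨v, hv⟩ := hXn
    exact ⟨⟨v, hv⟩⟩
  have huniv : ((univ : Finset {v // v ∈ X}).map (Function.Embedding.subtype _)) = X := by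
    ext v
    simp
  have hk' : ∀ v : {v // v ∈ X}, δ * κ ≤ E (fun u v : {v // v ∈ X} => w u v) {v} univ := by
    intro v
    rw [E_subtype, huniv, map_singleton]
    exact (mul_le_mul_of_nonneg_left (hk v) hδ.le).trans (hX v v.2)
  obtain ⟨l, hl, f, hf1, hf2⟩ := exists_expanding (w := fun u v : {v // v ∈ X} => w u v)
    (κ := δ * κ) (ρ := 1 / 2) (r := r) (by positivity) hk' (fun u v => hw _ _) (fun u v => hs _ _)
    (by norm_num) (by norm_num) (fun S h1 h2 => few_sparse (μ := μ) (by positivity) hk'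
      (fun u v => hw _ _) (fun u v => hμ _ _) (by rw [Fintype.card_coe]; exact hr) S h1 h2)
  refine ⟨l, hl, f, fun i => ?_, fun i B hB => ?_⟩
  · obtain ⟨v, hv⟩ := hf1 i
    exact ⟨v, mem_part.1 hv⟩
  · set Pi : Finset V := X.filter (fun v => ∃ h : v ∈ X, f ⟨v, h⟩ = i) with hPi
    set B' : Finset {v // v ∈ X} := univ.filter fun v => (v : V) ∈ B with hB'
    have hmap : B'.map (Function.Embedding.subtype _) = B := by
      ext v
      simp only [hB', mem_map, mem_filter, mem_univ, true_and, Function.Embedding.subtype_apply,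
        Subtype.exists, exists_and_left, exists_prop, exists_eq_right_right]
      constructor
      · exact fun h => h.1
      · exact fun h => ⟨h, (mem_filter.1 (hB h)).1⟩
    have hpart : (part f i).map (Function.Embedding.subtype _) = Pi := by
      ext v
      simp only [mem_map, mem_part, Function.Embedding.subtype_apply, Subtype.exists,
        exists_and_right, exists_eq_right, hPi, mem_filter]
      constructor
      · rintro ⟨h, h'⟩
        exact ⟨h, h, h'⟩
      · rintro ⟨_, h, h'⟩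
        exact ⟨h, h'⟩
    have hsd : (part f i \ B').map (Function.Embedding.subtype _) = Pi \ B := by
      rw [← hpart, ← hmap]
      ext v
      simp only [mem_map, mem_sdiff, Function.Embedding.subtype_apply, Subtype.exists,
        exists_and_right, exists_eq_right]
      constructor
      · rintro ⟨h, h1, h2⟩
        exact ⟨⟨h, h1⟩, fun ⟨_, h3⟩ => h2 h3⟩
      · rintro ⟨⟨h, h1⟩, h2⟩
        exact ⟨h, h1, fun h3 => h2 ⟨h, h3⟩⟩
    have hB'sub : B' ⊆ part f i := by
      intro v hv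
      rw [hB', mem_filter] at hv
      have h1 := (mem_filter.1 (hB hv.2)).2
      obtain ⟨h2, h3⟩ := h1
      exact mem_part.2 h3
    have hvolX : ∀ Y ⊆ X, δ * E w Y univ ≤ E w Y X := by
      intro Y hY
      rw [E_sum_left Y univ, E_sum_left Y X, mul_sum]
      exact sum_le_sum fun v hv => hX v (hY hv)
    have h1 := hf2 i B' hB'sub
    rw [E_subtype, E_subtype, E_subtype, huniv, hmap, hsd] at h1
    have hc : (1 / 2 : ℝ) ^ 2 / (6 * ((r : ℝ) + 2) ^ 2) = 1 / (24 * ((r : ℝ) + 2) ^ 2) := by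
      field_simp
      norm_num
    rw [hc] at h1
    have hc2 : ∀ Y ⊆ X, δ / (24 * ((r : ℝ) + 2) ^ 2) * E w Y univ ≤
        1 / (24 * ((r : ℝ) + 2) ^ 2) * E w Y X := by
      intro Y hY
      have h2 := mul_le_mul_of_nonneg_left (hvolX Y hY)
        (by positivity : 0 ≤ 1 / (24 * ((r : ℝ) + 2) ^ 2))
      refine le_trans (le_of_eq ?_) h2
      ring
    have hPX : Pi ⊆ X := filter_subset _ _
    rcases h1 with h1 | h1
    · exact Or.inl ((hc2 B (hB.trans hPX)).trans h1)
    · exact Or.inr ((hc2 (Pi \ B) (sdiff_subset.trans hPX)).trans h1)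

end

end Pool.Agent.H89Q
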