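import Pool.Agent.H89Q.HallSel

/-!
# Rounding a fractional choice of edges

Elements `e` with a job `job e` and two ends `a e`, `b e`.  If `x` assigns to the elements numbers in
`[0, 1]` with sum `1` in every job, then one can choose one element from each job such that every vertex
is an end `a e` (or an end `b e`) of at most `4` more chosen elements than the sum of the `x e`.
-/

set_option autoImplicit false

namespace Pool.Agent.H89Q

open Finset

section

variable {α β V : Type} [Fintype α] [DecidableEq α] [Fintype β] [DecidableEq β] [Fintype V]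
  [DecidableEq V]

/-- more variables than equations -/
theorem exists_ker (job : α → β) (a b : α → V) (F : Finset α) (J : Finset β) (A B : Finset V)
    (hcard : J.card + (A.card + B.card) < F.card) :
    ∃ z : α → ℝ, (∀ e, e ∉ F → z e = 0) ∧ (∃ e ∈ F, z e ≠ 0) ∧
      (∀ i ∈ J, ∑ e ∈ univ.filter (fun e => job e = i), z e = 0) ∧
      (∀ v ∈ A, ∑ e ∈ univ.filter (fun e => a e = v), z e = 0) ∧
      (∀ v ∈ B, ∑ e ∈ univ.filter (fun e => b e = v), z e = 0) := by
  classical
  let M : Matrix (J ⊕ (A ⊕ B)) F ℝ := fun c e =>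
    Sum.elim (fun i : J => if job e = i then 1 else 0)
      (Sum.elim (fun v : A => if a e = v then 1 else 0) (fun v : B => if b e = v then 1 else 0)) c
  have hker : LinearMap.ker M.mulVecLin ≠ ⊥ := by
    apply LinearMap.ker_ne_bot_of_finrank_lt
    rw [Module.finrank_pi, Module.finrank_pi, Fintype.card_sum, Fintype.card_sum,
      Fintype.card_coe, Fintype.card_coe, Fintype.card_coe, Fintype.card_coe]
    exact hcard
  obtain ⟨z0, hz0, hz0'⟩ := Submodule.exists_mem_ne_zero_of_ne_bot hker
  have hz1 : ∀ c, ∑ e : F, M c e * z0 e = 0 := by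
    intro c
    have h1 : M.mulVecLin z0 = 0 := hz0
    have h2 := congrFun h1 c
    simpa [Matrix.mulVecLin_apply, Matrix.mulVec, dotProduct] using h2
  let z : α → ℝ := fun e => if h : e ∈ F then z0 ⟨e, h⟩ else 0
  have hzF : ∀ e, e ∉ F → z e = 0 := fun e he => dif_neg he
  have hzc : ∀ e : F, z e = z0 e := fun e => by
    simp only [z]
    rw [dif_pos e.2]
  have hsum : ∀ P : α → Prop, [DecidablePred P] →
      ∑ e ∈ univ.filter (fun e => P e), z e = ∑ e : F, (if P e then 1 else 0) * z0 e := by
    intro P _
    have h1 : ∑ e : F, (if P e then (1 : ℝ) else 0) * z0 e =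
        ∑ e : F, (fun e : α => (if P e then (1 : ℝ) else 0) * z e) e :=
      sum_congr rfl fun e _ => by simp only [hzc e]
    rw [h1, sum_coe_sort F (fun e : α => (if P e then (1 : ℝ) else 0) * z e), sum_filter]
    symm
    refine (sum_subset (subset_univ F) fun e _ he => ?_).trans
      (sum_congr rfl fun e _ => ?_)
    · rw [hzF e he, mul_zero]
    · split_ifs <;> simp
  refine ⟨z, hzF, ?_, ?_, ?_, ?_⟩
  · by_contra hcon
    push Not at hcon
    apply hz0'
    funext e
    have h1 := hcon e e.2
    rw [hzc e] at h1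
    exact h1
  · intro i hi
    rw [hsum (fun e => job e = i)]
    exact hz1 (Sum.inl ⟨i, hi⟩)
  · intro v hv
    rw [hsum (fun e => a e = v)]
    exact hz1 (Sum.inr (Sum.inl ⟨v, hv⟩))
  · intro v hv
    rw [hsum (fun e => b e = v)]
    exact hz1 (Sum.inr (Sum.inr ⟨v, hv⟩))

open Classical in
/-- the fractional coordinates -/
noncomputable def frac (x : α → ℝ) : Finset α := univ.filter fun e => x e ≠ 0 ∧ x e ≠ 1

omit [DecidableEq α] in
theorem mem_frac {x : α → ℝ} {e : α} : e ∈ frac x ↔ x e ≠ 0 ∧ x e ≠ 1 := by
  classical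
  unfold frac
  rw [mem_filter]
  exact ⟨fun h => h.2, fun h => ⟨mem_univ _, h⟩⟩

omit [DecidableEq α] in
/-- moving along a direction until a fractional coordinate becomes integral -/
theorem exists_move (x z : α → ℝ) (hx : ∀ e, 0 ≤ x e ∧ x e ≤ 1) (hz : ∀ e, e ∉ frac x → z e = 0)
    (hne : ∃ e ∈ frac x, z e ≠ 0) :
    ∃ t : ℝ, (∀ e, 0 ≤ x e + t * z e ∧ x e + t * z e ≤ 1) ∧
      (frac fun e => x e + t * z e) ⊂ frac x := by
  classical
  let r : α → ℝ := fun e => if 0 < z e then (1 - x e) / z e else x e / (-z e)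
  have hS : ((frac x).filter fun e => z e ≠ 0).Nonempty := by
    obtain ⟨e, he, he'⟩ := hne
    exact ⟨e, mem_filter.2 ⟨he, he'⟩⟩
  obtain ⟨e0, he0, hmin⟩ := exists_min_image _ r hS
  rw [mem_filter] at he0
  obtain ⟨he0, hz0⟩ := he0
  have hxlt : ∀ e ∈ frac x, 0 < x e ∧ x e < 1 := by
    intro e he
    obtain ⟨h1, h2⟩ := mem_frac.1 he
    exact ⟨lt_of_le_of_ne (hx e).1 (Ne.symm h1), lt_of_le_of_ne (hx e).2 h2⟩
  have ht0 : 0 < r e0 := by
    obtain ⟨h1, h2⟩ := hxlt e0 he0
    simp only [r]
    split_ifs with h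
    · exact div_pos (by linarith) h
    · have h3 : z e0 < 0 := lt_of_le_of_ne (not_lt.1 h) hz0
      exact div_pos h1 (by linarith)
  have hbd : ∀ e, 0 ≤ x e + r e0 * z e ∧ x e + r e0 * z e ≤ 1 := by
    intro e
    by_cases he : e ∈ frac x ∧ z e ≠ 0
    · have h1 := hmin e (mem_filter.2 he)
      obtain ⟨h2, h3⟩ := hxlt e he.1
      rcases lt_or_gt_of_ne he.2 with h4 | h4
      · have h5 : r e = x e / (-z e) := if_neg (not_lt.2 h4.le)
        rw [h5, le_div_iff₀ (by linarith)] at h1
        constructor
        · linarith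
        · nlinarith
      · have h5 : r e = (1 - x e) / z e := if_pos h4
        rw [h5, le_div_iff₀ h4] at h1
        constructor
        · nlinarith
        · linarith
    · have h1 : z e = 0 := by
        by_contra h
        apply he
        refine ⟨?_, h⟩
        by_contra h'
        exact h (hz e h')
      rw [h1, mul_zero, add_zero]
      exact hx e
  refine ⟨r e0, hbd, ?_⟩
  rw [ssubset_iff_of_subset]
  · refine ⟨e0, he0, fun h => ?_⟩
    obtain ⟨h1, h2⟩ := mem_frac.1 h
    rcases lt_or_gt_of_ne hz0 with h4 | h4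
    · apply h1
      have h5 : r e0 = x e0 / (-z e0) := if_neg (not_lt.2 h4.le)
      rw [h5]
      field_simp
      ring
    · apply h2
      have h5 : r e0 = (1 - x e0) / z e0 := if_pos h4
      rw [h5]
      field_simp
      ring
  · intro e he
    by_contra h
    obtain ⟨h1, h2⟩ := mem_frac.1 he
    rw [hz e h, mul_zero, add_zero] at h1 h2
    exact h (mem_frac.2 ⟨h1, h2⟩)

omit [DecidableEq α] [Fintype β] in
/-- an active job has at least two fractional elements -/
theorem two_le_of_job (job : α → β) (x : α → ℝ) (hx : ∀ e, 0 ≤ x e ∧ x e ≤ 1) (i : β)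
    (hsum : ∑ e ∈ univ.filter (fun e => job e = i), x e = 1)
    (hne : ((frac x).filter fun e => job e = i).Nonempty) :
    2 ≤ ((frac x).filter fun e => job e = i).card := by
  classical
  by_contra hcon
  have h1 : ((frac x).filter fun e => job e = i).card = 1 := by
    have := hne.card_pos
    omega
  obtain ⟨e0, he0⟩ := card_eq_one.1 h1
  have h2 : e0 ∈ (frac x).filter fun e => job e = i := by rw [he0]; exact mem_singleton_self _
  rw [mem_filter] at h2
  have h3 : ∑ e ∈ univ.filter (fun e => job e = i), x e =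
      x e0 + ∑ e ∈ (univ.filter (fun e => job e = i)).erase e0, x e :=
    (add_sum_erase (univ.filter (fun e => job e = i)) x (mem_filter.2 ⟨mem_univ _, h2.2⟩)).symm
  have h4 : ∑ e ∈ (univ.filter (fun e => job e = i)).erase e0, x e =
      (((univ.filter (fun e => job e = i)).erase e0).filter fun e => x e = 1).card := by
    rw [card_filter]
    push_cast
    refine sum_congr rfl fun e he => ?_
    rw [mem_erase, mem_filter] at he
    split_ifs with h
    · exact h
    · by_contra h'
      have h5 : e ∈ (frac x).filter fun e => job e = i :=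
        mem_filter.2 ⟨mem_frac.2 ⟨h', h⟩, he.2.2⟩
      rw [he0, mem_singleton] at h5
      exact he.1 h5
  rw [h3, h4] at hsum
  obtain ⟨h5, h6⟩ := mem_frac.1 h2.1
  have h7 : 0 < x e0 := lt_of_le_of_ne (hx e0).1 (Ne.symm h5)
  have h8 : x e0 < 1 := lt_of_le_of_ne (hx e0).2 h6
  set N := (((univ.filter (fun e => job e = i)).erase e0).filter fun e => x e = 1).card
  have h9 : (N : ℝ) < 1 := by linarith
  have h10 : N < 1 := by exact_mod_cast h9
  have h11 : N = 0 := by omega
  rw [h11, Nat.cast_zero, add_zero] at hsum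
  exact h6 hsum

omit [DecidableEq α] [Fintype V] in
/-- a vertex which is not active -/
theorem load_le_of_not_active (a : α → V) (x : α → ℝ) (hx : ∀ e, 0 ≤ x e ∧ x e ≤ 1) (v : V)
    (hv : ¬ 5 ≤ ((frac x).filter fun e => a e = v).card) (S : Finset α)
    (hS : ∀ e, x e = 0 → e ∉ S) :
    ((S.filter fun e => a e = v).card : ℝ) ≤ ∑ e ∈ univ.filter (fun e => a e = v), x e + 4 := by
  classical
  have h1 : S.filter (fun e => a e = v) ⊆ (univ.filter (fun e => a e = v ∧ x e = 1)) ∪
      ((frac x).filter fun e => a e = v) := by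
    intro e he
    rw [mem_filter] at he
    rw [mem_union, mem_filter, mem_filter]
    by_cases h : x e = 1
    · exact Or.inl ⟨mem_univ _, he.2, h⟩
    · exact Or.inr ⟨mem_frac.2 ⟨fun h' => hS e h' he.1, h⟩, he.2⟩
  have h2 := (card_le_card h1).trans (card_union_le _ _)
  have h3 : ((univ.filter (fun e => a e = v ∧ x e = 1)).card : ℝ) ≤
      ∑ e ∈ univ.filter (fun e => a e = v), x e := by
    have h4 : ((univ.filter (fun e => a e = v ∧ x e = 1)).card : ℝ) =
        ∑ e ∈ univ.filter (fun e => a e = v ∧ x e = 1), x e := by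
      rw [sum_congr rfl (g := fun _ => (1 : ℝ)) fun e he => (mem_filter.1 he).2.2]
      simp
    rw [h4]
    refine sum_le_sum_of_subset_of_nonneg (fun e he => ?_) fun e _ _ => (hx e).1
    rw [mem_filter] at he
    exact mem_filter.2 ⟨mem_univ _, he.2.1⟩
  have h5 : ((S.filter fun e => a e = v).card : ℝ) ≤
      ((univ.filter (fun e => a e = v ∧ x e = 1)).card : ℝ) + 4 := by
    have h6 : (S.filter fun e => a e = v).card ≤ (univ.filter (fun e => a e = v ∧ x e = 1)).card + 4 := by
      omega
    exact_mod_cast h6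
  linarith

/-- **Rounding.** -/
theorem rounding_choice (job : α → β) (a b : α → V) (n : ℕ) : ∀ x : α → ℝ,
    (∀ e, 0 ≤ x e ∧ x e ≤ 1) → (∀ i, ∑ e ∈ univ.filter (fun e => job e = i), x e = 1) →
    (frac x).card ≤ n →
    ∃ S : Finset α, (∀ e, x e = 1 → e ∈ S) ∧ (∀ e, x e = 0 → e ∉ S) ∧
      (∀ i, (S.filter fun e => job e = i).card = 1) ∧
      (∀ v, ((S.filter fun e => a e = v).card : ℝ) ≤
        ∑ e ∈ univ.filter (fun e => a e = v), x e + 4) ∧
      (∀ v, ((S.filter fun e => b e = v).card : ℝ) ≤
        ∑ e ∈ univ.filter (fun e => b e = v), x e + 4) := by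
  classical
  have base : ∀ x : α → ℝ, (∀ e, 0 ≤ x e ∧ x e ≤ 1) →
      (∀ i, ∑ e ∈ univ.filter (fun e => job e = i), x e = 1) → frac x = ∅ →
      ∃ S : Finset α, (∀ e, x e = 1 → e ∈ S) ∧ (∀ e, x e = 0 → e ∉ S) ∧
      (∀ i, (S.filter fun e => job e = i).card = 1) ∧
      (∀ v, ((S.filter fun e => a e = v).card : ℝ) ≤
        ∑ e ∈ univ.filter (fun e => a e = v), x e + 4) ∧
      (∀ v, ((S.filter fun e => b e = v).card : ℝ) ≤
        ∑ e ∈ univ.filter (fun e => b e = v), x e + 4) := by
    intro x hx hs hf
    have h01 : ∀ e, x e = if x e = 1 then (1 : ℝ) else 0 := by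
      intro e
      split_ifs with h
      · exact h
      · by_contra h'
        have : e ∈ frac x := mem_frac.2 ⟨h', h⟩
        rw [hf] at this
        exact notMem_empty _ this
    refine ⟨univ.filter fun e => x e = 1, fun e he => mem_filter.2 ⟨mem_univ _, he⟩,
      fun e he h => ?_, fun i => ?_, fun v => ?_, fun v => ?_⟩
    · rw [(mem_filter.1 h).2] at he
      exact one_ne_zero he
    · have h1 : (((univ.filter fun e => x e = 1).filter fun e => job e = i).card : ℝ) =
          ∑ e ∈ univ.filter (fun e => job e = i), x e := by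
        rw [filter_filter, card_filter]
        push_cast
        rw [sum_filter]
        refine sum_congr rfl fun e _ => ?_
        by_cases h : job e = i
        · rw [if_pos h]
          by_cases h' : x e = 1
          · rw [if_pos ⟨h', h⟩, h']
          · rw [if_neg fun hh => h' hh.1]
            have := h01 e
            rw [if_neg h'] at this
            exact this.symm
        · rw [if_neg h, if_neg fun hh => h hh.2]
      rw [hs i] at h1
      exact_mod_cast h1
    · exact load_le_of_not_active a x hx v (by rw [hf]; simp) _ fun e he h => by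
        rw [(mem_filter.1 h).2] at he
        exact one_ne_zero he
    · exact load_le_of_not_active b x hx v (by rw [hf]; simp) _ fun e he h => by
        rw [(mem_filter.1 h).2] at he
        exact one_ne_zero he
  induction n with
  | zero =>
    intro x hx hs hf
    exact base x hx hs (card_eq_zero.1 (Nat.le_zero.1 hf))
  | succ n ih =>
    intro x hx hs hf
    rcases (frac x).eq_empty_or_nonempty with h0 | h0
    · exact base x hx hs h0
    -- the active constraints
    set J : Finset β := univ.filter fun i => ((frac x).filter fun e => job e = i).Nonempty with hJ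
    set A : Finset V := univ.filter fun v => 5 ≤ ((frac x).filter fun e => a e = v).card with hA
    set B : Finset V := univ.filter fun v => 5 ≤ ((frac x).filter fun e => b e = v).card with hB
    have hJc : 2 * J.card ≤ (frac x).card := by
      have h1 : (frac x).card = ∑ i, ((frac x).filter fun e => job e = i).card :=
        card_eq_sum_card_fiberwise fun e _ => mem_univ _
      rw [h1]
      calc 2 * J.card = ∑ i ∈ J, 2 := by rw [sum_const, smul_eq_mul, mul_comm]
        _ ≤ ∑ i ∈ J, ((frac x).filter fun e => job e = i).card :=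
            sum_le_sum fun i hi => two_le_of_job job x hx i (hs i) (mem_filter.1 hi).2
        _ ≤ _ := sum_le_sum_of_subset (subset_univ _)
    have hAc : ∀ (c : α → V) (C : Finset V),
        (∀ v ∈ C, 5 ≤ ((frac x).filter fun e => c e = v).card) → 5 * C.card ≤ (frac x).card := by
      intro c C hC
      have h1 : (frac x).card = ∑ v, ((frac x).filter fun e => c e = v).card :=
        card_eq_sum_card_fiberwise fun e _ => mem_univ _
      rw [h1]
      calc 5 * C.card = ∑ v ∈ C, 5 := by rw [sum_const, smul_eq_mul, mul_comm]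
        _ ≤ ∑ v ∈ C, ((frac x).filter fun e => c e = v).card := sum_le_sum hC
        _ ≤ _ := sum_le_sum_of_subset (subset_univ _)
    have h1 := hAc a A fun v hv => (mem_filter.1 hv).2
    have h2 := hAc b B fun v hv => (mem_filter.1 hv).2
    have h3 := h0.card_pos
    obtain ⟨z, hz1, hz2, hz3, hz4, hz5⟩ := exists_ker job a b (frac x) J A B (by omega)
    obtain ⟨t, ht1, ht2⟩ := exists_move x z hx hz1 hz2
    have hsumP : ∀ P : α → Prop, [DecidablePred P] → ∑ e ∈ univ.filter (fun e => P e), z e = 0 →
        ∑ e ∈ univ.filter (fun e => P e), (x e + t * z e) =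
          ∑ e ∈ univ.filter (fun e => P e), x e := by
      intro P _ h
      rw [sum_add_distrib, ← mul_sum, h, mul_zero, add_zero]
    have hcard := card_lt_card ht2
    obtain ⟨S, hS1, hS2, hS3, hS4, hS5⟩ := ih (fun e => x e + t * z e) ht1
      (fun i => by
        rw [hsumP (fun e => job e = i) ?_, hs i]
        by_cases hi : i ∈ J
        · exact hz3 i hi
        · refine sum_eq_zero fun e he => hz1 e fun h => hi ?_
          exact mem_filter.2 ⟨mem_univ _, ⟨e, mem_filter.2 ⟨h, (mem_filter.1 he).2⟩⟩⟩)
      (by omega)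
    have hx0 : ∀ e, x e = 0 → e ∉ S := by
      intro e he
      apply hS2 e
      show x e + t * z e = 0
      rw [hz1 e fun h => (mem_frac.1 h).1 he, he]
      ring
    have hx1 : ∀ e, x e = 1 → e ∈ S := by
      intro e he
      apply hS1 e
      show x e + t * z e = 1
      rw [hz1 e fun h => (mem_frac.1 h).2 he, he]
      ring
    refine ⟨S, hx1, hx0, hS3, fun v => ?_, fun v => ?_⟩
    · by_cases hv : v ∈ A
      · have h4 := hS4 v
        rw [hsumP (fun e => a e = v) (hz4 v hv)] at h4
        exact h4
      · exact load_le_of_not_active a x hx v (fun h => hv (mem_filter.2 ⟨mem_univ _, h⟩)) S hx0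
    · by_cases hv : v ∈ B
      · have h4 := hS5 v
        rw [hsumP (fun e => b e = v) (hz5 v hv)] at h4
        exact h4
      · exact load_le_of_not_active b x hx v (fun h => hv (mem_filter.2 ⟨mem_univ _, h⟩)) S hx0

end

/-- **Choice of one edge from each bundle with loads `deg / q + 4` at both ends.** -/
theorem select_lin {V : Type} [Fintype V] [DecidableEq V] (mult : V → V → ℕ)
    (hsymm : ∀ u v, mult u v = mult v u) {n q : ℕ} (hq : 0 < q)
    (F : Fin n → Finset (V × V × ℕ)) (hF : ∀ i, ∀ e ∈ F i, e.2.2 < mult e.1 e.2.1)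
    (hdis : ∀ i j, i ≠ j → Disjoint (F i) (F j)) (hcard : ∀ i, q ≤ (F i).card) :
    ∃ ch : Fin n → V × V × ℕ, (∀ i, ch i ∈ F i) ∧
      (∀ x, ((univ.filter fun i => (ch i).1 = x).card : ℝ) ≤ (dg mult x : ℝ) / q + 4) ∧
      (∀ x, ((univ.filter fun i => (ch i).2.1 = x).card : ℝ) ≤ (dg mult x : ℝ) / q + 4) := by
  classical
  have hc : ∀ i, ∃ c : Fin q → V × V × ℕ, Function.Injective c ∧ ∀ p, c p ∈ F i := by
    intro i
    have h2 : Fintype.card (Fin q) ≤ Fintype.card (F i) := by
      rw [Fintype.card_coe, Fintype.card_fin]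
      exact hcard i
    obtain ⟨c⟩ := Function.Embedding.nonempty_of_card_le h2
    exact ⟨fun p => (c p : V × V × ℕ), fun a b h => c.injective (Subtype.ext h),
      fun p => (c p).2⟩
  choose c hcinj hcF using hc
  have hinj : Function.Injective (fun p : Fin n × Fin q => c p.1 p.2) := by
    rintro ⟨i, a⟩ ⟨j, b⟩ h
    have hij : i = j := by
      by_contra hij
      have h1 : c i a = c j b := h
      have h2 := hcF i a
      rw [h1] at h2
      exact disjoint_left.1 (hdis i j hij) h2 (hcF j b)
    subst hij
    have h1 : a = b := hcinj i h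
    rw [h1]
  -- the numbers of unit edges at a vertex
  let out : V → Finset (V × V × ℕ) := fun x =>
    (univ : Finset V).biUnion fun v => (range (mult x v)).image fun j => (x, v, j)
  let inn : V → Finset (V × V × ℕ) := fun x =>
    (univ : Finset V).biUnion fun v => (range (mult v x)).image fun j => (v, x, j)
  have hout : ∀ x, (out x).card ≤ dg mult x := by
    intro x
    refine card_biUnion_le.trans (sum_le_sum fun v _ => ?_)
    exact card_image_le.trans (by rw [card_range])
  have hinn : ∀ x, (inn x).card ≤ dg mult x := by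
    intro x
    refine card_biUnion_le.trans (sum_le_sum fun v _ => ?_)
    exact card_image_le.trans (by rw [card_range, hsymm])
  have hmo : ∀ e : V × V × ℕ, e.2.2 < mult e.1 e.2.1 → e ∈ out e.1 := by
    rintro ⟨u, v, j⟩ h
    exact mem_biUnion.2 ⟨v, mem_univ _, mem_image.2 ⟨j, mem_range.2 h, rfl⟩⟩
  have hmi : ∀ e : V × V × ℕ, e.2.2 < mult e.1 e.2.1 → e ∈ inn e.2.1 := by
    rintro ⟨u, v, j⟩ h
    exact mem_biUnion.2 ⟨u, mem_univ _, mem_image.2 ⟨j, mem_range.2 h, rfl⟩⟩
  have hq0 : (0 : ℝ) < q := by exact_mod_cast hq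
  obtain ⟨S, -, -, hS3, hS4, hS5⟩ := rounding_choice (α := Fin n × Fin q) (fun p => p.1)
    (fun p => (c p.1 p.2).1) (fun p => (c p.1 p.2).2.1) _ (fun _ => 1 / (q : ℝ))
    (fun _ => ⟨by positivity, by
      rw [div_le_one hq0]
      exact_mod_cast hq⟩)
    (fun i => by
      rw [sum_const, nsmul_eq_mul]
      have h1 : (univ.filter fun p : Fin n × Fin q => p.1 = i) =
          (univ : Finset (Fin q)).image fun t => (i, t) := by
        ext ⟨j, t⟩
        simp only [mem_filter, mem_univ, true_and, mem_image, Prod.mk.injEq]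
        constructor
        · intro h
          exact ⟨t, h.symm, rfl⟩
        · rintro ⟨_, h, _⟩
          exact h.symm
      rw [h1, card_image_of_injective _ (fun a b h => by simpa using h), card_univ,
        Fintype.card_fin]
      field_simp) le_rfl
  have hch : ∀ i, ∃ t, (i, t) ∈ S := by
    intro i
    obtain ⟨p, hp⟩ := card_eq_one.1 (hS3 i)
    have h1 : p ∈ S.filter fun e => e.1 = i := by rw [hp]; exact mem_singleton_self _
    rw [mem_filter] at h1
    refine ⟨p.2, ?_⟩
    rw [← h1.2]
    exact h1.1
  choose t ht using hch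
  refine ⟨fun i => c i (t i), fun i => hcF i _, fun x => ?_, fun x => ?_⟩
  · have h1 : (univ.filter fun i => (c i (t i)).1 = x).card ≤
        (S.filter fun e => (c e.1 e.2).1 = x).card := by
      refine card_le_card_of_injOn (fun i => (i, t i)) (fun i hi => ?_) ?_
      · have hi' := (mem_filter.1 (mem_coe.1 hi)).2
        exact mem_coe.2 (mem_filter.2 ⟨ht i, hi'⟩)
      · intro i _ j _ h
        exact (Prod.mk.inj h).1
    have h2 : ((univ.filter fun i => (c i (t i)).1 = x).card : ℝ) ≤
        ((S.filter fun e => (c e.1 e.2).1 = x).card : ℝ) := by exact_mod_cast h1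
    refine h2.trans ((hS4 x).trans ?_)
    rw [sum_const, nsmul_eq_mul]
    have h3 : (univ.filter fun p : Fin n × Fin q => (c p.1 p.2).1 = x).card ≤ dg mult x := by
      refine le_trans ?_ (hout x)
      refine card_le_card_of_injOn (fun p => c p.1 p.2) (fun p hp => ?_) (hinj.injOn)
      have hp' := (mem_filter.1 (mem_coe.1 hp)).2
      have h1 := hmo _ (hF p.1 _ (hcF p.1 p.2))
      rw [hp'] at h1
      exact h1
    have h4 : ((univ.filter fun p : Fin n × Fin q => (c p.1 p.2).1 = x).card : ℝ) ≤ dg mult x := by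
      exact_mod_cast h3
    have h5 := mul_le_mul_of_nonneg_right h4 (by positivity : 0 ≤ 1 / (q : ℝ))
    have h6 : (dg mult x : ℝ) / q = dg mult x * (1 / q) := by ring
    rw [h6]
    linarith
  · have h1 : (univ.filter fun i => (c i (t i)).2.1 = x).card ≤
        (S.filter fun e => (c e.1 e.2).2.1 = x).card := by
      refine card_le_card_of_injOn (fun i => (i, t i)) (fun i hi => ?_) ?_
      · have hi' := (mem_filter.1 (mem_coe.1 hi)).2
        exact mem_coe.2 (mem_filter.2 ⟨ht i, hi'⟩)
      · intro i _ j _ h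
        exact (Prod.mk.inj h).1
    have h2 : ((univ.filter fun i => (c i (t i)).2.1 = x).card : ℝ) ≤
        ((S.filter fun e => (c e.1 e.2).2.1 = x).card : ℝ) := by exact_mod_cast h1
    refine h2.trans ((hS5 x).trans ?_)
    rw [sum_const, nsmul_eq_mul]
    have h3 : (univ.filter fun p : Fin n × Fin q => (c p.1 p.2).2.1 = x).card ≤ dg mult x := by
      refine le_trans ?_ (hinn x)
      refine card_le_card_of_injOn (fun p => c p.1 p.2) (fun p hp => ?_) (hinj.injOn)
      have hp' := (mem_filter.1 (mem_coe.1 hp)).2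
      have h1 := hmi _ (hF p.1 _ (hcF p.1 p.2))
      rw [hp'] at h1
      exact h1
    have h4 : ((univ.filter fun p : Fin n × Fin q => (c p.1 p.2).2.1 = x).card : ℝ) ≤
        dg mult x := by exact_mod_cast h3
    have h5 := mul_le_mul_of_nonneg_right h4 (by positivity : 0 ≤ 1 / (q : ℝ))
    have h6 : (dg mult x : ℝ) / q = dg mult x * (1 / q) := by ring
    rw [h6]
    linarith

end Pool.Agent.H89Q
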