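import Pool.Agent.H85.Thin.Glue
import Pool.Agent.H89Q.Jobs
import Pool.Agent.H89Q.Round

/-!
# Glueing the trees of the expanding parts along the quotient

The parts expand, and candidate sets for the quotient are given.  One edge is chosen from each bundle
with small loads at both ends; a cut `A` is rounded to a union `A'` of parts, and the minority vertices
have small volume.
-/

set_option autoImplicit false
set_option linter.unusedSectionVars false

namespace Pool.Agent.H89Q

open Finset Pool.Agent.H85.Thin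

section

variable {V : Type} [Fintype V] [DecidableEq V]

/-- the unit edges of a bundle -/
def unitE {l : ℕ} (mult : V → V → ℕ) (f : V → Fin l) (g : Finset (Fin l × Fin l)) :
    Finset (V × V × ℕ) :=
  ((univ : Finset (V × V)).filter fun p => (f p.1, f p.2) ∈ g).biUnion fun p =>
    (range (mult p.1 p.2)).image fun j => (p.1, p.2, j)

theorem mem_unitE {l : ℕ} {mult : V → V → ℕ} {f : V → Fin l} {g : Finset (Fin l × Fin l)}
    {e : V × V × ℕ} : e ∈ unitE mult f g ↔ (f e.1, f e.2.1) ∈ g ∧ e.2.2 < mult e.1 e.2.1 := by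
  obtain ⟨u, v, j⟩ := e
  unfold unitE
  simp only [mem_biUnion, mem_filter, mem_univ, true_and, mem_image, mem_range, Prod.mk.injEq]
  constructor
  · rintro ⟨⟨a, b⟩, h1, j', h2, rfl, rfl, rfl⟩
    exact ⟨h1, h2⟩
  · rintro ⟨h1, h2⟩
    exact ⟨(u, v), h1, j, h2, rfl, rfl, rfl⟩

theorem card_unitE {l : ℕ} (mult : V → V → ℕ) (f : V → Fin l) (g : Finset (Fin l × Fin l)) :
    (unitE mult f g).card = ∑ e ∈ g, ∑ u ∈ part f e.1, ∑ v ∈ part f e.2, mult u v := by
  unfold unitE
  rw [card_biUnion]
  · have h1 : ∀ p : V × V, ((range (mult p.1 p.2)).image fun j => (p.1, p.2, j)).card =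
        mult p.1 p.2 := by
      intro p
      rw [card_image_of_injective, card_range]
      intro a b h
      simpa using h
    rw [sum_congr rfl fun p _ => h1 p]
    rw [← sum_fiberwise_of_maps_to (s := (univ : Finset (V × V)).filter
      fun p => (f p.1, f p.2) ∈ g) (t := g) (g := fun p => (f p.1, f p.2))
      (fun p hp => (mem_filter.1 hp).2)]
    refine sum_congr rfl fun e he => ?_
    rw [← sum_product']
    refine sum_congr ?_ fun _ _ => rfl
    ext p
    simp only [mem_filter, mem_univ, true_and, mem_product, mem_part]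
    constructor
    · rintro ⟨-, h2⟩
      rw [← h2]
      exact ⟨rfl, rfl⟩
    · rintro ⟨h1, h2⟩
      have : (f p.1, f p.2) = e := Prod.ext h1 h2
      exact ⟨by rw [this]; exact he, this⟩
  · intro p _ p' _ hpp'
    rw [Function.onFun, disjoint_left]
    intro x hx hx'
    obtain ⟨j, _, rfl⟩ := mem_image.1 hx
    obtain ⟨j', _, h⟩ := mem_image.1 hx'
    simp only [Prod.mk.injEq] at h
    exact hpp' (Prod.ext h.1.symm h.2.1.symm)

/-- the sum over the parts of the inner cuts is at most the cut -/
theorem sum_inner_le {w : V → V → ℝ} (hw : ∀ u v, 0 ≤ w u v) {l : ℕ} (f : V → Fin l)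
    (A : Finset V) : ∑ i, E w (part f i ∩ A) (part f i \ A) ≤ cut w A := by
  have h6 : ∑ i, E w (part f i ∩ A) (part f i \ A) ≤ ∑ i, E w (part f i ∩ A) (univ \ A) :=
    Finset.sum_le_sum fun i _ =>
      E_mono hw subset_rfl (Finset.sdiff_subset_sdiff (Finset.subset_univ _) subset_rfl)
  refine h6.trans (le_of_eq ?_)
  unfold cut E
  rw [← Finset.sum_fiberwise_of_maps_to (s := A) (t := univ) (g := f)
    (fun v _ => Finset.mem_univ _)]
  refine Finset.sum_congr rfl fun i _ => ?_
  refine Finset.sum_congr ?_ fun _ _ => rfl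
  ext v
  simp only [mem_inter, mem_filter, mem_part]
  tauto

/-- **Rounding.** A cut `A` is close to a union of parts. -/
theorem rounding {w : V → V → ℝ} (hw : ∀ u v, 0 ≤ w u v) (hs : ∀ u v, w u v = w v u) {φ : ℝ}
    (hφ : 0 < φ) {l : ℕ} (f : V → Fin l)
    (hexp : ∀ i, ∀ B ⊆ part f i,
      φ * E w B univ ≤ E w B (part f i \ B) ∨ φ * E w (part f i \ B) univ ≤ E w B (part f i \ B))
    (A : Finset V) :
    ∃ (A' : Finset (Fin l)) (M : Finset V), (∀ x, x ∉ M → (x ∈ A ↔ f x ∈ A')) ∧
      φ * E w M univ ≤ cut w A ∧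
      ∑ a ∈ A', ∑ b ∈ A'ᶜ, E w (part f a) (part f b) ≤ cut w A + E w M univ := by
  classical
  let A' : Finset (Fin l) := univ.filter fun i =>
    ¬ φ * E w (part f i ∩ A) univ ≤ E w (part f i ∩ A) (part f i \ A)
  let S : Finset V := univ.filter fun x => f x ∈ A'
  let M : Finset V := univ.filter fun x => ¬ (x ∈ A ↔ f x ∈ A')
  have hsd : ∀ i, part f i \ (part f i ∩ A) = part f i \ A := by
    intro i
    ext v
    simp only [mem_sdiff, mem_inter]
    tauto
  refine ⟨A', M, fun x hx => ?_, ?_, ?_⟩
  · by_contra h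
    exact hx (mem_filter.2 ⟨mem_univ _, h⟩)
  · -- the volume of the minority
    have h1 : E w M univ = ∑ i, E w (M.filter fun x => f x = i) univ := by
      unfold E
      rw [← Finset.sum_fiberwise_of_maps_to (s := M) (t := univ) (g := f)
        (fun v _ => Finset.mem_univ _)]
    rw [h1, mul_sum]
    refine (sum_le_sum fun i _ => ?_).trans (sum_inner_le hw f A)
    by_cases hi : φ * E w (part f i ∩ A) univ ≤ E w (part f i ∩ A) (part f i \ A)
    · have hiA : i ∉ A' := fun h => (mem_filter.1 h).2 hi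
      have h2 : M.filter (fun x => f x = i) ⊆ part f i ∩ A := by
        intro x hx
        rw [mem_filter, mem_filter] at hx
        obtain ⟨⟨-, h3⟩, h4⟩ := hx
        rw [mem_inter, mem_part]
        refine ⟨h4, ?_⟩
        by_contra h5
        apply h3
        rw [h4]
        exact ⟨fun h => absurd h h5, fun h => absurd h hiA⟩
      exact (mul_le_mul_of_nonneg_left (E_mono hw h2 subset_rfl) hφ.le).trans hi
    · have hiA : i ∈ A' := mem_filter.2 ⟨mem_univ _, hi⟩
      have h2 : M.filter (fun x => f x = i) ⊆ part f i \ A := by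
        intro x hx
        rw [mem_filter, mem_filter] at hx
        obtain ⟨⟨-, h3⟩, h4⟩ := hx
        rw [mem_sdiff, mem_part]
        refine ⟨h4, ?_⟩
        intro h5
        apply h3
        rw [h4]
        exact ⟨fun _ => hiA, fun _ => h5⟩
      have h3 := hexp i (part f i ∩ A) inter_subset_left
      rw [hsd] at h3
      exact (mul_le_mul_of_nonneg_left (E_mono hw h2 subset_rfl) hφ.le).trans (h3.resolve_left hi)
  · -- the rounded cut
    have h1 : ∑ a ∈ A', ∑ b ∈ A'ᶜ, E w (part f a) (part f b) = E w S (univ \ S) := by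
      have e1 : ∀ (X : Finset (Fin l)) (F : V → ℝ), ∑ a ∈ X, ∑ u ∈ part f a, F u =
          ∑ u ∈ univ.filter (fun x => f x ∈ X), F u := by
        intro X F
        rw [← Finset.sum_fiberwise_of_maps_to (s := univ.filter (fun x => f x ∈ X)) (t := X)
          (g := f) (fun v hv => (mem_filter.1 hv).2)]
        refine sum_congr rfl fun a ha => sum_congr ?_ fun _ _ => rfl
        ext x
        simp only [mem_part, mem_filter, mem_univ, true_and]
        constructor
        · intro h
          rw [h]
          exact ⟨ha, rfl⟩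
        · exact fun h => h.2
      have e2 : (univ.filter fun x => f x ∈ A'ᶜ) = univ \ S := by
        ext x
        simp only [S, mem_filter, mem_univ, true_and, mem_compl, mem_sdiff]
      unfold E
      calc ∑ a ∈ A', ∑ b ∈ A'ᶜ, ∑ u ∈ part f a, ∑ v ∈ part f b, w u v
          = ∑ a ∈ A', ∑ u ∈ part f a, ∑ b ∈ A'ᶜ, ∑ v ∈ part f b, w u v :=
            sum_congr rfl fun a _ => sum_comm
        _ = ∑ u ∈ S, ∑ b ∈ A'ᶜ, ∑ v ∈ part f b, w u v := e1 A' _
        _ = ∑ u ∈ S, ∑ v ∈ univ \ S, w u v := by
            refine sum_congr rfl fun u _ => ?_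
            rw [e1 A'ᶜ, e2]
    rw [h1]
    have h2 : E w S (univ \ S) = E w (S ∩ A) ((univ \ S) \ A) + E w (S ∩ A) ((univ \ S) ∩ A) +
        E w (S \ A) (univ \ S) := by
      have e1 : S = (S ∩ A) ∪ (S \ A) := by
        ext x
        simp only [mem_union, mem_inter, mem_sdiff]
        tauto
      have e2 : univ \ S = ((univ \ S) \ A) ∪ ((univ \ S) ∩ A) := by
        ext x
        simp only [mem_union, mem_inter, mem_sdiff]
        tauto
      have e3 : E w S (univ \ S) = E w (S ∩ A) (univ \ S) + E w (S \ A) (univ \ S) := by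
        rw [← E_union_left (disjoint_sdiff_inter S A).symm (univ \ S), ← e1]
      have e4 : E w (S ∩ A) (univ \ S) = E w (S ∩ A) ((univ \ S) \ A) +
          E w (S ∩ A) ((univ \ S) ∩ A) := by
        rw [← E_union_right _ (disjoint_sdiff_inter (univ \ S) A), ← e2]
      rw [e3, e4]
    have h3 : E w (S ∩ A) ((univ \ S) \ A) ≤ cut w A :=
      E_mono hw inter_subset_right (sdiff_subset_sdiff (subset_univ _) subset_rfl)
    have h4 : E w (S ∩ A) ((univ \ S) ∩ A) ≤ E w (M ∩ A) univ := by
      rw [E_comm hs]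
      refine E_mono hw ?_ (subset_univ _)
      intro x hx
      simp only [S, mem_inter, mem_sdiff, mem_univ, true_and, mem_filter] at hx
      simp only [M, mem_inter, mem_filter, mem_univ, true_and]
      exact ⟨fun h => hx.1 (h.1 hx.2), hx.2⟩
    have h5 : E w (S \ A) (univ \ S) ≤ E w (M \ A) univ := by
      refine E_mono hw ?_ (subset_univ _)
      intro x hx
      simp only [S, mem_sdiff, mem_filter, mem_univ, true_and] at hx
      simp only [M, mem_sdiff, mem_filter, mem_univ, true_and]
      exact ⟨fun h => hx.2 (h.2 hx.1), hx.2⟩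
    have h6 : E w M univ = E w (M ∩ A) univ + E w (M \ A) univ := by
      rw [← E_union_left (disjoint_sdiff_inter M A).symm univ]
      congr 1
      ext x
      simp only [mem_union, mem_inter, mem_sdiff]
      tauto
    linarith

/-- **Glueing.** -/
theorem glue [Nonempty V] (mult : V → V → ℕ) (hsymm : ∀ u v, mult u v = mult v u) {k φ α : ℝ}
    (hk : 0 < k) (hφ : 0 < φ) (hφ1 : φ ≤ 1)
    (hdeg : ∀ v, k ≤ E (fun u v => (mult u v : ℝ)) {v} univ) {l : ℕ} (f : V → Fin l)
    (hsurj : ∀ i, (part f i).Nonempty)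
    (hexp : ∀ i, ∀ B ⊆ part f i,
      φ * E (fun u v => (mult u v : ℝ)) B univ ≤
        E (fun u v => (mult u v : ℝ)) B (part f i \ B) ∨
      φ * E (fun u v => (mult u v : ℝ)) (part f i \ B) univ ≤
        E (fun u v => (mult u v : ℝ)) B (part f i \ B))
    {n q : ℕ} (hq : 0 < q) (g : ℕ → Finset (Fin l × Fin l))
    (hne : ∀ i < n, ∀ e ∈ g i, e.1 ≠ e.2)
    (hcard : ∀ i < n, q ≤ ∑ e ∈ g i, ∑ u ∈ part f e.1, ∑ v ∈ part f e.2, mult u v)
    (hdis : ∀ i < n, ∀ j < n, i ≠ j → Disjoint (g i) (g j))
    (hspan : ∀ ch : ℕ → Fin l × Fin l, (∀ i < n, ch i ∈ g i) → ∀ r : Fin l → Fin l → Prop,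
      Equivalence r → (∀ i < n, r (ch i).1 (ch i).2) → ∀ u v, r u v)
    (hα : 0 ≤ α)
    (hload : ∀ ch : ℕ → Fin l × Fin l, (∀ i < n, ch i ∈ g i) → ∀ A : Finset (Fin l),
      ∀ J : Finset ℕ, (∀ i ∈ J, i < n ∧ Cross A (ch i)) →
      (J.card : ℝ) ≤ α * ∑ a ∈ A, ∑ b ∈ Aᶜ,
        E (fun u v => (mult u v : ℝ)) (part f a) (part f b)) :
    ∃ T : SimpleGraph V, T.IsTree ∧ (∀ u v, T.Adj u v → 0 < mult u v) ∧
      ∀ A : Finset V, (Set.ncard {p : V × V | p.1 ∈ A ∧ p.2 ∉ A ∧ T.Adj p.1 p.2} : ℝ) ≤
        (α * (1 + 1 / φ) + 2 * (1 / q + 4 / k) / φ + 5 / (φ ^ 2 * k)) *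
          cut (fun u v => (mult u v : ℝ)) A := by
  classical
  set w : V → V → ℝ := fun u v => (mult u v : ℝ) with hwdef
  have hw : ∀ u v, 0 ≤ w u v := fun u v => Nat.cast_nonneg _
  have hsy : ∀ u v, w u v = w v u := fun u v => by simp only [hwdef, hsymm u v]
  have hdg : ∀ v, (dg mult v : ℝ) = E w {v} univ := by
    intro v
    rw [E_singleton]
    unfold dg
    push_cast
    rfl
  -- the trees of the parts
  choose root hroot using hsurj
  choose par rk hT using fun i => exists_tree hk hφ hdeg hw hsy (hroot i) (hexp i)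
  -- the choice of the edges
  obtain ⟨ch, hchF, hch1, hch2⟩ := select_lin mult hsymm hq (fun i : Fin n => unitE mult f (g i))
    (fun i e he => (mem_unitE.1 he).2)
    (fun i j hij => by
      rw [disjoint_left]
      intro e he he'
      exact disjoint_left.1 (hdis i i.2 j j.2 (fun h => hij (Fin.ext h)))
        (mem_unitE.1 he).1 (mem_unitE.1 he').1)
    (fun i => by
      rw [card_unitE]
      exact hcard i i.2)
  have hchg : ∀ i : Fin n, (f (ch i).1, f (ch i).2.1) ∈ g i := fun i => (mem_unitE.1 (hchF i)).1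
  have hchm : ∀ i : Fin n, 0 < mult (ch i).1 (ch i).2.1 := fun i =>
    lt_of_le_of_lt (Nat.zero_le _) (mem_unitE.1 (hchF i)).2
  let v0 : V := Classical.arbitrary V
  let chQ : ℕ → Fin l × Fin l := fun i =>
    if h : i < n then (f (ch ⟨i, h⟩).1, f (ch ⟨i, h⟩).2.1) else (f v0, f v0)
  have hchQ : ∀ i : Fin n, chQ i = (f (ch i).1, f (ch i).2.1) := by
    intro i
    simp only [chQ]
    rw [dif_pos i.2]
  have hchQg : ∀ i < n, chQ i ∈ g i := fun i hi => by
    have := hchQ ⟨i, hi⟩
    simp only at this
    rw [this]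
    exact hchg ⟨i, hi⟩
  let R : V → V → Prop := fun x y =>
    (x ≠ root (f x) ∧ y = par (f x) x) ∨ ∃ i : Fin n, (ch i).1 = x ∧ (ch i).2.1 = y
  have hRw : ∀ x y, R x y → 0 < mult x y := by
    rintro x y (⟨h1, rfl⟩ | ⟨i, rfl, rfl⟩)
    · have h2 : (0 : ℝ) < (mult x (par (f x) x) : ℝ) :=
        ((hT (f x)).2.1 x (mem_part.2 rfl) h1).2.1
      exact_mod_cast h2
    · exact hchm i
  let H : SimpleGraph V := SimpleGraph.fromRel R
  have hHadj : ∀ x y, H.Adj x y ↔ x ≠ y ∧ (R x y ∨ R y x) := fun x y => Iff.rfl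
  have hHw : ∀ u v, H.Adj u v → 0 < mult u v := by
    intro u v h
    rcases ((hHadj u v).1 h).2 with h | h
    · exact hRw u v h
    · rw [hsymm u v]
      exact hRw v u h
  -- every vertex reaches the root of its part
  have hreach : ∀ n, ∀ x, rk (f x) x = n → H.Reachable x (root (f x)) := by
    intro n
    induction n using Nat.strong_induction_on with
    | _ n ih =>
      intro x hx
      by_cases hxr : x = root (f x)
      · rw [← hxr]
      · obtain ⟨a1, a2, a3⟩ := (hT (f x)).2.1 x (mem_part.2 rfl) hxr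
        have hfy : f (par (f x) x) = f x := mem_part.1 a1
        have h1 := ih (rk (f x) (par (f x) x)) (by rw [← hx]; exact a3) (par (f x) x)
          (by rw [hfy])
        rw [hfy] at h1
        have hadj : H.Adj x (par (f x) x) := by
          rw [hHadj]
          refine ⟨fun e => ?_, Or.inl (Or.inl ⟨hxr, rfl⟩)⟩
          rw [← e] at a3
          exact lt_irrefl _ a3
        exact hadj.reachable.trans h1
  have hreach' : ∀ x y, f x = f y → H.Reachable x y := by
    intro x y hxy
    have h1 := hreach _ x rfl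
    have h2 := hreach _ y rfl
    rw [hxy] at h1
    exact h1.trans h2.symm
  have hconnH : H.Connected := by
    rw [SimpleGraph.connected_iff]
    refine ⟨fun x0 y0 => ?_, inferInstance⟩
    have h1 := hspan chQ hchQg (fun a b => ∀ x y, f x = a → f y = b → H.Reachable x y)
      ⟨fun a x y hx hy => hreach' x y (hx.trans hy.symm),
        fun h x y hx hy => (h y x hy hx).symm,
        fun {a b c} h h' x y hx hy => by
          have hb := mem_part.1 (hroot b)
          exact (h x (root b) hx hb).trans (h' (root b) y hb hy)⟩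
      (fun i hi x y hx hy => by
        have h2 := hchQ ⟨i, hi⟩
        simp only at h2
        rw [h2] at hx hy
        simp only at hx hy
        have h3 : H.Reachable (ch ⟨i, hi⟩).1 (ch ⟨i, hi⟩).2.1 := by
          refine SimpleGraph.Adj.reachable ?_
          rw [hHadj]
          refine ⟨fun e => ?_, Or.inl (Or.inr ⟨⟨i, hi⟩, rfl, rfl⟩)⟩
          exact hne i hi _ (hchg ⟨i, hi⟩) (by simp only; rw [e])
        exact (hreach' x _ hx).trans (h3.trans (hreach' _ y hy.symm)))
      (f x0) (f y0)
    exact h1 x0 y0 rfl rfl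
  obtain ⟨T, hTH, hTT⟩ := hconnH.exists_isTree_le
  refine ⟨T, hTT, fun u v h => hHw u v (hTH h), fun A => ?_⟩
  -- rounding
  obtain ⟨A', M, hM1, hM2, hM3⟩ := rounding hw hsy hφ f hexp A
  -- the crossing pairs
  let X1 : Finset V := univ.filter fun x => x ≠ root (f x) ∧ x ∈ A ∧ par (f x) x ∉ A
  let X2 : Finset V := univ.filter fun x => x ≠ root (f x) ∧ x ∉ A ∧ par (f x) x ∈ A
  let X3 : Finset (Fin n) := univ.filter fun i =>
    ((ch i).1 ∈ A ∧ (ch i).2.1 ∉ A) ∨ ((ch i).1 ∉ A ∧ (ch i).2.1 ∈ A)
  let e3 : Fin n → V × V := fun i => if (ch i).1 ∈ A then ((ch i).1, (ch i).2.1)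
    else ((ch i).2.1, (ch i).1)
  have hsub : {p : V × V | p.1 ∈ A ∧ p.2 ∉ A ∧ T.Adj p.1 p.2} ⊆
      (((X1.image fun x => (x, par (f x) x)) ∪ (X2.image fun x => (par (f x) x, x))) ∪
        X3.image e3 : Finset (V × V)) := by
    rintro ⟨u, v⟩ ⟨hu, hv, huv⟩
    have h1 := ((hHadj u v).1 (hTH huv)).2
    rw [Finset.mem_coe, Finset.mem_union, Finset.mem_union]
    simp only at hu hv
    rcases h1 with (⟨h1, h2⟩ | ⟨i, h1, h2⟩) | (⟨h1, h2⟩ | ⟨i, h1, h2⟩)
    · left; left
      rw [Finset.mem_image]
      refine ⟨u, ?_, by rw [h2]⟩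
      simp only [X1, mem_filter, mem_univ, true_and]
      rw [← h2]
      exact ⟨h1, hu, hv⟩
    · right
      rw [Finset.mem_image]
      refine ⟨i, ?_, ?_⟩
      · simp only [X3, mem_filter, mem_univ, true_and]
        left
        rw [h1, h2]
        exact ⟨hu, hv⟩
      · simp only [e3]
        rw [h1, h2, if_pos hu]
    · left; right
      rw [Finset.mem_image]
      refine ⟨v, ?_, by rw [h2]⟩
      simp only [X2, mem_filter, mem_univ, true_and]
      rw [← h2]
      exact ⟨h1, hv, hu⟩
    · right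
      rw [Finset.mem_image]
      refine ⟨i, ?_, ?_⟩
      · simp only [X3, mem_filter, mem_univ, true_and]
        right
        rw [h1, h2]
        exact ⟨hv, hu⟩
      · simp only [e3]
        rw [h1, h2, if_neg hv]
  have hcount : Set.ncard {p : V × V | p.1 ∈ A ∧ p.2 ∉ A ∧ T.Adj p.1 p.2} ≤
      (X1.card + X2.card) + X3.card := by
    refine (Set.ncard_le_ncard hsub (Finset.finite_toSet _)).trans ?_
    rw [Set.ncard_coe_finset]
    refine (Finset.card_union_le _ _).trans (add_le_add ?_ Finset.card_image_le)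
    exact (Finset.card_union_le _ _).trans (add_le_add Finset.card_image_le Finset.card_image_le)
  -- the tree edges of the parts
  have hparts : ((X1.card + X2.card : ℕ) : ℝ) ≤ 5 / (φ ^ 2 * k) * cut w A := by
    have e1 : X1.card = ∑ i, (X1.filter fun x => f x = i).card :=
      Finset.card_eq_sum_card_fiberwise fun x _ => Finset.mem_univ _
    have e2 : X2.card = ∑ i, (X2.filter fun x => f x = i).card :=
      Finset.card_eq_sum_card_fiberwise fun x _ => Finset.mem_univ _
    have e3 : ((X1.card + X2.card : ℕ) : ℝ) =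
        ∑ i, (((X1.filter fun x => f x = i).card + (X2.filter fun x => f x = i).card : ℕ) : ℝ) := by
      rw [e1, e2, ← Finset.sum_add_distrib, Nat.cast_sum]
    have hone : ∀ i, (((X1.filter fun x => f x = i).card + (X2.filter fun x => f x = i).card : ℕ) : ℝ)
        ≤ 5 / (φ ^ 2 * k) * E w (part f i ∩ A) (part f i \ A) := by
      intro i
      have hB : part f i ∩ A ⊆ part f i := Finset.inter_subset_left
      have hsd : part f i \ (part f i ∩ A) = part f i \ A := by
        ext v
        simp only [mem_sdiff, mem_inter]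
        tauto
      have c1 := count_part hk hφ hφ1 hdeg hw (hT i) (B := part f i ∩ A)
        (X := X1.filter fun x => f x = i) (Y := X2.filter fun x => f x = i)
        (by
          intro x hx
          simp only [X1, mem_filter, mem_univ, true_and] at hx
          rw [Finset.mem_inter, mem_part]
          exact ⟨hx.2, hx.1.2.1⟩)
        (by
          intro x hx
          simp only [X2, mem_filter, mem_univ, true_and] at hx
          obtain ⟨⟨h1, _, h3⟩, h4⟩ := hx
          subst h4
          refine ⟨mem_part.2 rfl, h1, Finset.mem_inter.2 ⟨?_, h3⟩⟩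
          exact ((hT (f x)).2.1 x (mem_part.2 rfl) h1).1)
      have c2 := count_part hk hφ hφ1 hdeg hw (hT i) (B := part f i \ A)
        (X := X2.filter fun x => f x = i) (Y := X1.filter fun x => f x = i)
        (by
          intro x hx
          simp only [X2, mem_filter, mem_univ, true_and] at hx
          rw [Finset.mem_sdiff, mem_part]
          exact ⟨hx.2, hx.1.2.1⟩)
        (by
          intro x hx
          simp only [X1, mem_filter, mem_univ, true_and] at hx
          obtain ⟨⟨h1, _, h3⟩, h4⟩ := hx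
          subst h4
          refine ⟨mem_part.2 rfl, h1, Finset.mem_sdiff.2 ⟨?_, h3⟩⟩
          exact ((hT (f x)).2.1 x (mem_part.2 rfl) h1).1)
      have hpos : 0 ≤ 5 / (φ * k) := by positivity
      have e4 : 5 / (φ ^ 2 * k) = 5 / (φ * k) * (1 / φ) := by
        field_simp
      rcases hexp i _ hB with h | h
      · rw [hsd] at h
        have h5 : E w (part f i ∩ A) univ ≤ 1 / φ * E w (part f i ∩ A) (part f i \ A) := by
          rw [one_div, ← div_eq_inv_mul, le_div_iff₀ hφ, mul_comm]
          exact h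
        rw [e4, mul_assoc]
        exact c1.trans (mul_le_mul_of_nonneg_left h5 hpos)
      · rw [hsd] at h
        have h5 : E w (part f i \ A) univ ≤ 1 / φ * E w (part f i ∩ A) (part f i \ A) := by
          rw [one_div, ← div_eq_inv_mul, le_div_iff₀ hφ, mul_comm]
          exact h
        rw [e4, mul_assoc, add_comm]
        exact c2.trans (mul_le_mul_of_nonneg_left h5 hpos)
    rw [e3]
    refine (Finset.sum_le_sum fun i _ => hone i).trans ?_
    rw [← Finset.mul_sum]
    exact mul_le_mul_of_nonneg_left (sum_inner_le hw f A) (by positivity)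
  -- the edges between the parts
  have hvolM : E w M univ ≤ 1 / φ * cut w A := by
    rw [one_div, ← div_eq_inv_mul, le_div_iff₀ hφ, mul_comm]
    exact hM2
  have hq0 : (0 : ℝ) < q := by exact_mod_cast hq
  have hend : ∀ en : Fin n → V,
      (∀ x, ((univ.filter fun i => en i = x).card : ℝ) ≤ (dg mult x : ℝ) / q + 4) →
      ((univ.filter fun i => en i ∈ M).card : ℝ) ≤ (1 / q + 4 / k) * E w M univ := by
    intro en hen
    have h1 : (univ.filter fun i => en i ∈ M).card =
        ∑ x ∈ M, ((univ.filter fun i => en i ∈ M).filter fun i => en i = x).card :=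
      card_eq_sum_card_fiberwise fun i hi => (mem_filter.1 hi).2
    have h2 : ((univ.filter fun i => en i ∈ M).card : ℝ) ≤
        ∑ x ∈ M, ((dg mult x : ℝ) / q + 4) := by
      rw [h1]
      push_cast
      refine sum_le_sum fun x _ => ?_
      refine le_trans ?_ (hen x)
      have h3 : ((univ.filter fun i => en i ∈ M).filter fun i => en i = x).card ≤
          (univ.filter fun i => en i = x).card :=
        card_le_card (filter_subset_filter _ (filter_subset _ _))
      exact_mod_cast h3
    refine h2.trans ?_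
    rw [E_sum_left M univ, mul_sum]
    refine sum_le_sum fun x _ => ?_
    rw [hdg x]
    have h5 : (1 : ℝ) ≤ E w {x} univ / k := by
      rw [le_div_iff₀ hk, one_mul]
      exact hdeg x
    have h6 : (1 / (q : ℝ) + 4 / k) * E w {x} univ = E w {x} univ / q + 4 * (E w {x} univ / k) := by
      ring
    rw [h6]
    linarith
  have hX3 : (X3.card : ℝ) ≤ α * (cut w A + E w M univ) + 2 * ((1 / q + 4 / k) * E w M univ) := by
    have h1 : X3.card ≤ (univ.filter fun i : Fin n => Cross A' (chQ i)).card +
        ((univ.filter fun i : Fin n => (ch i).1 ∈ M).card +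
          (univ.filter fun i : Fin n => (ch i).2.1 ∈ M).card) := by
      refine (card_le_card ?_).trans ((card_union_le _ _).trans
        (add_le_add_right (card_union_le _ _) _))
      intro i hi
      simp only [X3, mem_filter, mem_univ, true_and] at hi
      rw [mem_union, mem_union, mem_filter, mem_filter, mem_filter]
      by_cases hm1 : (ch i).1 ∈ M
      · exact Or.inr (Or.inl ⟨mem_univ _, hm1⟩)
      by_cases hm2 : (ch i).2.1 ∈ M
      · exact Or.inr (Or.inr ⟨mem_univ _, hm2⟩)
      refine Or.inl ⟨mem_univ _, ?_⟩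
      have a1 := hM1 _ hm1
      have a2 := hM1 _ hm2
      rw [hchQ i]
      unfold Cross
      simp only
      rw [← a1, ← a2]
      exact hi
    have h2 : ((univ.filter fun i : Fin n => Cross A' (chQ i)).card : ℝ) ≤
        α * (cut w A + E w M univ) := by
      have h3 := hload chQ hchQg A' ((univ.filter fun i : Fin n => Cross A' (chQ i)).image
        (fun i : Fin n => (i : ℕ))) (by
          intro i hi
          obtain ⟨j, hj, rfl⟩ := mem_image.1 hi
          exact ⟨j.2, (mem_filter.1 hj).2⟩)
      rw [card_image_of_injective _ Fin.val_injective] at h3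
      exact h3.trans (mul_le_mul_of_nonneg_left hM3 hα)
    have h3 := hend (fun i => (ch i).1) hch1
    have h4 := hend (fun i => (ch i).2.1) hch2
    have h5 : (X3.card : ℝ) ≤ ((univ.filter fun i : Fin n => Cross A' (chQ i)).card : ℝ) +
        (((univ.filter fun i : Fin n => (ch i).1 ∈ M).card : ℝ) +
          ((univ.filter fun i : Fin n => (ch i).2.1 ∈ M).card : ℝ)) := by
      exact_mod_cast h1
    linarith
  have hfin : (Set.ncard {p : V × V | p.1 ∈ A ∧ p.2 ∉ A ∧ T.Adj p.1 p.2} : ℝ) ≤
      ((X1.card + X2.card : ℕ) : ℝ) + (X3.card : ℝ) := by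
    have := hcount
    exact_mod_cast this
  have e1 : α * (cut w A + E w M univ) ≤ α * (1 + 1 / φ) * cut w A := by
    rw [mul_assoc]
    refine mul_le_mul_of_nonneg_left ?_ hα
    linarith
  have e2 : 2 * ((1 / (q : ℝ) + 4 / k) * E w M univ) ≤ 2 * (1 / q + 4 / k) / φ * cut w A := by
    have h1 : 2 * (1 / (q : ℝ) + 4 / k) / φ * cut w A =
        2 * ((1 / (q : ℝ) + 4 / k) * (1 / φ * cut w A)) := by ring
    rw [h1]
    have h2 : 0 ≤ 1 / (q : ℝ) + 4 / k := by positivity
    have h3 := mul_le_mul_of_nonneg_left hvolM h2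
    linarith
  have e3' : (α * (1 + 1 / φ) + 2 * (1 / q + 4 / k) / φ + 5 / (φ ^ 2 * k)) * cut w A =
      α * (1 + 1 / φ) * cut w A + 2 * (1 / q + 4 / k) / φ * cut w A +
        5 / (φ ^ 2 * k) * cut w A := by ring
  rw [e3']
  linarith

end

end Pool.Agent.H89Q
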