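import Mathlib

/-!
# Choosing one edge from each bundle with small loads at both ends

`F i` are pairwise disjoint sets of (oriented) edges of a multigraph, each with at least `s * q`
elements. By Hall's theorem, used twice, one can choose one edge from each of them such that every
vertex `x` is the first end of at most `deg x / q + 1` and the second end of at most `deg x / s + 1`
chosen edges.
-/

set_option autoImplicit false

namespace Pool.Agent.H89Q

open Finset

/-- Hall's theorem for bundles with `q` elements each -/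
theorem hall_sel {α V : Type} [Fintype α] [DecidableEq α] [DecidableEq V] {q : ℕ}
    (hq : 0 < q) (en : α → Fin q → V) (D : V → ℕ)
    (hD : ∀ x, ((univ : Finset (α × Fin q)).filter fun p => en p.1 p.2 = x).card ≤ D x) :
    ∃ g : α → Fin q, ∀ x, (univ.filter fun a => en a (g a) = x).card ≤ D x / q + 1 := by
  classical
  let N : α → Finset V := fun a => univ.image (en a)
  let t : α → Finset (Σ x : V, Fin (D x / q + 1)) := fun a => (N a).sigma fun _ => univ
  have hall : ∀ J : Finset α, J.card ≤ (J.biUnion t).card := by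
    intro J
    have hb : J.biUnion t = (J.biUnion N).sigma fun _ => univ := by
      ext ⟨a, b⟩
      simp only [t, mem_biUnion, mem_sigma, mem_univ, and_true]
    have hcardb : (J.biUnion t).card = ∑ x ∈ J.biUnion N, (D x / q + 1) := by
      rw [hb, card_sigma]
      simp
    rw [hcardb]
    have h1 : (J ×ˢ (univ : Finset (Fin q))).card =
        ∑ x ∈ J.biUnion N, ((J ×ˢ (univ : Finset (Fin q))).filter fun p => en p.1 p.2 = x).card :=
      card_eq_sum_card_fiberwise fun p hp => by
        have hp' := mem_product.1 hp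
        exact mem_biUnion.2 ⟨p.1, hp'.1, mem_image_of_mem _ (mem_univ _)⟩
    have h2 : ∀ x ∈ J.biUnion N,
        ((J ×ˢ (univ : Finset (Fin q))).filter fun p => en p.1 p.2 = x).card ≤
          (D x / q + 1) * q := by
      intro x _
      refine (card_le_card ?_).trans ((hD x).trans ?_)
      · exact filter_subset_filter _ (subset_univ _)
      · have h3 := Nat.div_add_mod (D x) q
        have h4 := Nat.mod_lt (D x) hq
        nlinarith
    have h3 := sum_le_sum h2
    rw [← h1, card_product, card_univ, Fintype.card_fin, ← sum_mul] at h3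
    exact Nat.le_of_mul_le_mul_right h3 hq
  obtain ⟨F, hFinj, hF⟩ := (all_card_le_biUnion_card_iff_exists_injective t).1 hall
  have hg : ∀ a, ∃ b : Fin q, en a b = (F a).1 := by
    intro a
    have h1 := hF a
    simp only [t, mem_sigma, mem_univ, and_true, N, mem_image, true_and] at h1
    exact h1
  choose g hg using hg
  refine ⟨g, fun x => ?_⟩
  rw [← card_image_of_injective _ hFinj]
  have h2 : ((univ.filter fun a => en a (g a) = x).image F) ⊆
      ({x} : Finset V).sigma fun _ => univ := by
    intro y hy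
    obtain ⟨a, ha, rfl⟩ := mem_image.1 hy
    rw [mem_sigma, mem_singleton]
    exact ⟨(hg a).symm.trans (mem_filter.1 ha).2, mem_univ _⟩
  refine (card_le_card h2).trans ?_
  rw [card_sigma]
  simp

/-- the degree of a vertex -/
def dg {V : Type} [Fintype V] (mult : V → V → ℕ) (x : V) : ℕ := ∑ v, mult x v

/-- **Choice of one edge from each bundle with small loads at both ends.** -/
theorem select {V : Type} [Fintype V] [DecidableEq V] (mult : V → V → ℕ)
    (hsymm : ∀ u v, mult u v = mult v u) {n s q : ℕ} (hs : 0 < s) (hq : 0 < q)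
    (F : Fin n → Finset (V × V × ℕ)) (hF : ∀ i, ∀ e ∈ F i, e.2.2 < mult e.1 e.2.1)
    (hdis : ∀ i j, i ≠ j → Disjoint (F i) (F j)) (hcard : ∀ i, s * q ≤ (F i).card) :
    ∃ ch : Fin n → V × V × ℕ, (∀ i, ch i ∈ F i) ∧
      (∀ x, (univ.filter fun i => (ch i).1 = x).card ≤ dg mult x / q + 1) ∧
      (∀ x, (univ.filter fun i => (ch i).2.1 = x).card ≤ dg mult x / s + 1) := by
  classical
  -- sub-bundles
  have hc : ∀ i, ∃ c : Fin s × Fin q → V × V × ℕ, Function.Injective c ∧ ∀ p, c p ∈ F i := by
    intro i
    have h1 : Fintype.card (Fin s × Fin q) ≤ (F i).card := by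
      rw [Fintype.card_prod, Fintype.card_fin, Fintype.card_fin]
      exact hcard i
    have h2 : Fintype.card (Fin s × Fin q) ≤ Fintype.card (F i) := by
      rw [Fintype.card_coe]
      exact h1
    obtain ⟨c⟩ := Function.Embedding.nonempty_of_card_le h2
    exact ⟨fun p => (c p : V × V × ℕ), fun a b h => c.injective (Subtype.ext h),
      fun p => (c p).2⟩
  choose c hcinj hcF using hc
  have hinj : Function.Injective (fun p : Fin n × (Fin s × Fin q) => c p.1 p.2) := by
    rintro ⟨i, a⟩ ⟨j, b⟩ h
    have hij : i = j := by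
      by_contra hij
      have h1 : c i a = c j b := h
      have h2 := hcF i a
      rw [h1] at h2
      exact disjoint_left.1 (hdis i j hij) h2 (hcF j b)
    subst hij
    have h1 : a = b := hcinj i h
    rw [h1]
  -- the numbers of unit edges at a vertex
  let out : V → Finset (V × V × ℕ) := fun x =>
    (univ : Finset V).biUnion fun v => (range (mult x v)).image fun j => (x, v, j)
  let inn : V → Finset (V × V × ℕ) := fun x =>
    (univ : Finset V).biUnion fun v => (range (mult v x)).image fun j => (v, x, j)
  have hout : ∀ x, (out x).card ≤ dg mult x := by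
    intro x
    refine card_biUnion_le.trans (sum_le_sum fun v _ => ?_)
    exact card_image_le.trans (by rw [card_range])
  have hinn : ∀ x, (inn x).card ≤ dg mult x := by
    intro x
    refine card_biUnion_le.trans (sum_le_sum fun v _ => ?_)
    exact card_image_le.trans (by rw [card_range, hsymm])
  have hmo : ∀ e : V × V × ℕ, e.2.2 < mult e.1 e.2.1 → e ∈ out e.1 := by
    rintro ⟨u, v, j⟩ h
    exact mem_biUnion.2 ⟨v, mem_univ _, mem_image.2 ⟨j, mem_range.2 h, rfl⟩⟩
  have hmi : ∀ e : V × V × ℕ, e.2.2 < mult e.1 e.2.1 → e ∈ inn e.2.1 := by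
    rintro ⟨u, v, j⟩ h
    exact mem_biUnion.2 ⟨u, mem_univ _, mem_image.2 ⟨j, mem_range.2 h, rfl⟩⟩
  -- first use of Hall's theorem
  obtain ⟨g1, hg1⟩ := hall_sel (α := Fin n × Fin s) hq
    (fun a b => (c a.1 (a.2, b)).1) (dg mult) (by
      intro x
      refine le_trans ?_ (hout x)
      refine card_le_card_of_injOn (fun p => c p.1.1 (p.1.2, p.2)) (fun p hp => ?_) ?_
      · have hp' := (mem_filter.1 (mem_coe.1 hp)).2
        have h1 := hmo _ (hF p.1.1 _ (hcF p.1.1 (p.1.2, p.2)))
        rw [hp'] at h1
        exact h1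
      · rintro ⟨⟨i, a⟩, b⟩ _ ⟨⟨j, a'⟩, b'⟩ _ h
        have h1 := @hinj (i, (a, b)) (j, (a', b')) h
        simp only [Prod.mk.injEq] at h1
        obtain ⟨h2, h3, h4⟩ := h1
        rw [h2, h3, h4])
  -- second use of Hall's theorem
  obtain ⟨g2, hg2⟩ := hall_sel (α := Fin n) hs
    (fun i t => (c i (t, g1 (i, t))).2.1) (dg mult) (by
      intro x
      refine le_trans ?_ (hinn x)
      refine card_le_card_of_injOn (fun p => c p.1 (p.2, g1 (p.1, p.2))) (fun p hp => ?_) ?_
      · have hp' := (mem_filter.1 (mem_coe.1 hp)).2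
        have h1 := hmi _ (hF p.1 _ (hcF p.1 (p.2, g1 (p.1, p.2))))
        rw [hp'] at h1
        exact h1
      · rintro ⟨i, a⟩ _ ⟨j, a'⟩ _ h
        have h1 := @hinj (i, (a, g1 (i, a))) (j, (a', g1 (j, a'))) h
        simp only [Prod.mk.injEq] at h1
        obtain ⟨h2, h3, _⟩ := h1
        rw [h2, h3])
  refine ⟨fun i => c i (g2 i, g1 (i, g2 i)), fun i => hcF i _, fun x => ?_, hg2⟩
  refine le_trans ?_ (hg1 x)
  refine card_le_card_of_injOn (fun i => (i, g2 i)) (fun i hi => ?_) ?_
  · have hi' := (mem_filter.1 (mem_coe.1 hi)).2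
    exact mem_coe.2 (mem_filter.2 ⟨mem_univ _, hi'⟩)
  · intro i _ j _ h
    exact (Prod.mk.inj h).1

end Pool.Agent.H89Q
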