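import Pool.Agent.H89Q.RTree
import Pool.Agent.H89Q.Expand

/-!
# Expanding parts of a graph whose vertices are distributed over the nodes of a tree
-/

set_option autoImplicit false
set_option linter.unusedSectionVars false

namespace Pool.Agent.H89Q

open Finset Pool.Agent.H85.Thin

section

variable {V : Type} [Fintype V] [DecidableEq V] {w : V → V → ℝ}

/-- **Levels.** -/
theorem exists_levels (hw : ∀ u v, 0 ≤ w u v) (hs : ∀ u v, w u v = w v u) {δ : ℝ} (hδ1 : δ ≤ 1)
    (d : V → ℕ) (hd : ∀ u v, 0 < w u v → d u ≤ d v + 1) {h L : ℕ} (hL : L = 2 * h + 2)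
    (S : ℕ → Finset V) (hS1 : ∀ B v, B + h ≤ d v → v ∈ S B)
    (hS2 : ∀ B v, d v + h + 1 ≤ B → v ∉ S B) (hS3 : ∀ B, Good w δ (S B))
    (hS4 : ∀ B, Good w δ (univ \ S B)) :
    ∃ f : V → ℕ, (∀ v, δ * E w {v} univ ≤ E w {v} (univ.filter fun u => f u = f v)) ∧
      (∀ v, d v < (f v + 1) * L + h) ∧ ∀ v, f v * L ≤ d v + h := by
  classical
  let St : ℕ → Finset V := fun t => if t = 0 then univ else S (t * L)
  have hSt0 : St 0 = univ := if_pos rfl
  have hSts : ∀ t, St (t + 1) = S ((t + 1) * L) := fun t => if_neg (Nat.succ_ne_zero t)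
  have hhi : ∀ t v, t * L + h ≤ d v → v ∈ St t := by
    intro t v hv
    cases t with
    | zero => rw [hSt0]; exact mem_univ _
    | succ t => rw [hSts]; exact hS1 _ v hv
  have hlo : ∀ t v, d v + h + 1 ≤ (t + 1) * L → v ∉ St (t + 1) := by
    intro t v hv
    rw [hSts]
    exact hS2 _ v hv
  have hin : ∀ t, ∀ v ∈ St t, δ * E w {v} univ ≤ E w {v} (St t) := by
    intro t v hv
    cases t with
    | zero =>
      rw [hSt0]
      exact mul_le_of_le_one_left (E_nonneg hw {v} univ) hδ1
    | succ t =>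
      rw [hSts] at hv ⊢
      exact hS3 _ v hv
  have hout : ∀ t v, v ∉ St (t + 1) → δ * E w {v} univ ≤ E w {v} (univ \ St (t + 1)) := by
    intro t v hv
    rw [hSts] at hv ⊢
    exact hS4 _ v (mem_sdiff.2 ⟨mem_univ _, hv⟩)
  have hex : ∀ v, ∃ t, v ∉ St (t + 1) := by
    intro v
    refine ⟨d v + h, hlo _ v ?_⟩
    have h1 : 1 ≤ L := by omega
    calc d v + h + 1 ≤ (d v + h + 1) * 1 := by omega
      _ ≤ (d v + h + 1) * L := Nat.mul_le_mul_left _ h1
  let f : V → ℕ := fun v => Nat.find (hex v)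
  have hf1 : ∀ v, v ∉ St (f v + 1) := fun v => Nat.find_spec (hex v)
  have hf2 : ∀ v t, t ≤ f v → v ∈ St t := by
    intro v t ht
    cases t with
    | zero => rw [hSt0]; exact mem_univ _
    | succ t =>
      by_contra h
      exact Nat.find_min (hex v) (m := t) (Nat.lt_of_succ_le ht) h
  have hf3 : ∀ v t, v ∉ St (t + 1) → f v ≤ t := fun v t h => Nat.find_min' (hex v) h
  have hup : ∀ v, d v < (f v + 1) * L + h := by
    intro v
    by_contra hc
    exact hf1 v (hhi _ v (not_lt.1 hc))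
  have hdn : ∀ v, f v * L ≤ d v + h := by
    intro v
    rcases Nat.eq_zero_or_pos (f v) with hc | hc
    · rw [hc]; omega
    · by_contra h'
      push Not at h'
      obtain ⟨t, ht⟩ : ∃ t, f v = t + 1 := ⟨f v - 1, by omega⟩
      have h2 := hf2 v (f v) le_rfl
      rw [ht] at h2 h'
      exact hlo t v (by omega) h2
  have hnest : ∀ t v, v ∈ St (t + 1) → v ∈ St t := by
    intro t v hv
    apply hhi
    by_contra hc
    push Not at hc
    apply hlo t v _ hv
    have : (t + 1) * L = t * L + L := by ring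
    omega
  have hf4 : ∀ v t, v ∈ St t → t ≤ f v := by
    intro v t hv
    by_contra hc
    push Not at hc
    have key : ∀ s, f v + 1 ≤ s → v ∉ St s := by
      intro s hs'
      induction s, hs' using Nat.le_induction with
      | base => exact hf1 v
      | succ s _ ih => exact fun h => ih (hnest s v h)
    exact key t hc hv
  refine ⟨f, fun v => ?_, hup, hdn⟩
  by_cases hc : d v + h + 2 ≤ (f v + 1) * L
  · have h1 : E w {v} (univ.filter fun u => f u = f v) = E w {v} (St (f v)) := by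
      rw [E_singleton, E_singleton]
      refine sum_subset (fun u hu => ?_) fun u hu hu' => ?_
      · rw [mem_filter] at hu
        exact hf2 u (f v) hu.2.ge
      · by_contra hne
        have hpos : 0 < w v u := lt_of_le_of_ne (hw v u) (Ne.symm hne)
        have h2 := hd u v (by rw [hs]; exact hpos)
        apply hu'
        refine mem_filter.2 ⟨mem_univ _, le_antisymm ?_ (hf4 u _ hu)⟩
        exact hf3 u _ (hlo _ u (by omega))
    rw [h1]
    exact hin _ v (hf2 v _ le_rfl)
  · have h1 : E w {v} (univ.filter fun u => f u = f v) = E w {v} (univ \ St (f v + 1)) := by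
      rw [E_singleton, E_singleton]
      refine sum_subset (fun u hu => ?_) fun u hu hu' => ?_
      · rw [mem_filter] at hu
        rw [mem_sdiff, ← hu.2]
        exact ⟨mem_univ _, hf1 u⟩
      · by_contra hne
        have hpos : 0 < w v u := lt_of_le_of_ne (hw v u) (Ne.symm hne)
        have h2 := hd v u hpos
        apply hu'
        refine mem_filter.2 ⟨mem_univ _, le_antisymm (hf3 u _ (mem_sdiff.1 hu).2) ?_⟩
        apply hf4
        apply hhi
        have h3 : (f v + 1) * L = f v * L + L := by ring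
        omega
    rw [h1]
    exact hout _ v (hf1 v)

/-- **Expanding parts.** -/
theorem exists_host_parts {ι : Type} [Fintype ι] [DecidableEq ι] (hw : ∀ u v, 0 ≤ w u v)
    (hs : ∀ u v, w u v = w v u) (h0 : ∀ v, w v v = 0) {δ κ μ b Dm : ℝ} (hδ : 0 < δ)
    (hδ1 : δ ≤ 1 / 4) (hκ : 0 < κ) (hk : ∀ v, κ ≤ E w {v} univ) (hμ : ∀ u v, w u v ≤ μ)
    (hμ0 : 0 ≤ μ) (hDm : ∀ v, E w {v} univ ≤ Dm) (hDm0 : 0 ≤ Dm) (hb0 : 0 ≤ b)
    {par : ι → ι} {dep : ι → ℕ} {Δ : ℕ} (hΔ : 1 ≤ Δ)
    (hdep : ∀ a, 0 < dep a → dep a = dep (par a) + 1)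
    (hch : ∀ x, (univ.filter fun y => 0 < dep y ∧ par y = x).card ≤ Δ) (z : V → ι)
    (hz : ∀ u v, 0 < w u v → z u = z v ∨ (z u = par (z v) ∧ dep (z v) = dep (z u) + 1) ∨
      (z v = par (z u) ∧ dep (z u) = dep (z v) + 1))
    (hb : ∀ x, ((univ.filter fun v => z v = x).card : ℝ) ≤ b) {h : ℕ} (hh : 1 ≤ h)
    (hbig : ∀ j, h ≤ j + 1 → 4 * μ * ((2 * δ) ^ j * ((Δ : ℝ) ^ (j + 1) * (b * Dm))) < κ ^ 2)
    {r : ℕ} (hr : 2 * μ * (((4 * h + 2 : ℕ) : ℝ) * (Δ : ℝ) ^ (4 * h + 2) * b) <
      ((r : ℝ) + 1) * (δ * κ)) :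
    ∃ (l : ℕ) (F : V → Fin l), (∀ i, (part F i).Nonempty) ∧
      (∀ i, ∀ B ⊆ part F i,
        δ / (24 * ((r : ℝ) + 2) ^ 2) * E w B univ ≤ E w B (part F i \ B) ∨
        δ / (24 * ((r : ℝ) + 2) ^ 2) * E w (part F i \ B) univ ≤ E w B (part F i \ B)) ∧
      ∀ y, (univ.filter fun i => ∃ v, F v = i ∧ z v = y).card ≤ 3 * r := by
  classical
  have hdz : ∀ u v, 0 < w u v → dep (z u) ≤ dep (z v) + 1 := by
    intro u v huv
    rcases hz u v huv with h1 | h1 | h1
    · rw [h1]; omega
    · omega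
    · omega
  have hanc : ∀ u v, 0 < w u v → ∀ j, j ≤ dep (z u) → j ≤ dep (z v) →
      par^[dep (z u) - j] (z u) = par^[dep (z v) - j] (z v) := by
    intro u v huv j hu hv
    rcases hz u v huv with h1 | h1 | h1
    · rw [h1]
    · have h2 : dep (z v) - j = (dep (z u) - j) + 1 := by omega
      rw [h2, Function.iterate_succ_apply, ← h1.1]
    · have h2 : dep (z u) - j = (dep (z v) - j) + 1 := by omega
      rw [h2, Function.iterate_succ_apply, ← h1.1]
  choose S hS1 hS2 hS3 hS4 using fun B : ℕ => exists_boundary hw hs h0 hδ.le hδ1 hκ hk hμ hμ0 hDm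
    hDm0 hb0 hΔ hdep hch z hz hb hh hbig B
  obtain ⟨L, hL⟩ : ∃ L, L = 2 * h + 2 := ⟨_, rfl⟩
  obtain ⟨f, hf1, hf2, hf3⟩ := exists_levels hw hs (by linarith : δ ≤ 1) (fun v => dep (z v)) hdz
    hL S hS1 hS2 hS3 hS4
  -- the blocks
  let key : V → ℕ × ι := fun v => (f v, par^[dep (z v) - (f v * L - h)] (z v))
  let X : ℕ × ι → Finset V := fun q => univ.filter fun v => key v = q
  have hmX : ∀ q v, v ∈ X q ↔ key v = q := fun q v => by simp [X]
  have hXdeg : ∀ q, ∀ v ∈ X q, δ * E w {v} univ ≤ E w {v} (X q) := by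
    intro q v hv
    rw [hmX] at hv
    refine (hf1 v).trans ?_
    rw [E_singleton, E_singleton]
    refine le_of_eq (Eq.symm ?_)
    refine sum_subset (fun u hu => ?_) fun u hu hu' => ?_
    · rw [hmX, ← hv] at hu
      exact mem_filter.2 ⟨mem_univ _, congrArg Prod.fst hu⟩
    · by_contra hne
      have hpos : 0 < w v u := lt_of_le_of_ne (hw v u) (Ne.symm hne)
      have hfu := (mem_filter.1 hu).2
      apply hu'
      rw [hmX, ← hv]
      show (f u, par^[dep (z u) - (f u * L - h)] (z u)) =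
        (f v, par^[dep (z v) - (f v * L - h)] (z v))
      rw [hfu]
      have h1 := hf3 u
      have h2 := hf3 v
      rw [hfu] at h1
      rw [hanc u v (by rw [hs]; exact hpos) (f v * L - h) (by omega) (by omega)]
  have hXcard : ∀ q, ((X q).card : ℝ) ≤ ((4 * h + 2 : ℕ) : ℝ) * (Δ : ℝ) ^ (4 * h + 2) * b := by
    intro q
    have h1 : X q ⊆ (range (4 * h + 2)).biUnion fun i => (Sub par dep q.2 i).biUnion fun y =>
        univ.filter fun v => z v = y := by
      intro v hv
      rw [hmX] at hv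
      have h2 := hf2 v
      have h3 := hf3 v
      have h4 : f v = q.1 := congrArg Prod.fst hv
      have h5 : par^[dep (z v) - (f v * L - h)] (z v) = q.2 := congrArg Prod.snd hv
      rw [mem_biUnion]
      refine ⟨dep (z v) - (f v * L - h), ?_, ?_⟩
      · rw [mem_range]
        have h6 : (f v + 1) * L = f v * L + L := by ring
        omega
      · rw [mem_biUnion]
        exact ⟨z v, mem_filter.2 ⟨mem_univ _, by omega, h5⟩, mem_filter.2 ⟨mem_univ _, rfl⟩⟩
    have hΔ1 : (1 : ℝ) ≤ Δ := by exact_mod_cast hΔ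
    have h2 : ((X q).card : ℝ) ≤ ∑ i ∈ range (4 * h + 2), ∑ y ∈ Sub par dep q.2 i,
        ((univ.filter fun v => z v = y).card : ℝ) := by
      have h3 := (card_le_card h1).trans (card_biUnion_le.trans
        (sum_le_sum fun i (_ : i ∈ range (4 * h + 2)) => card_biUnion_le))
      exact_mod_cast h3
    refine h2.trans ?_
    have h3 : ∀ i ∈ range (4 * h + 2), ∑ y ∈ Sub par dep q.2 i,
        ((univ.filter fun v => z v = y).card : ℝ) ≤ (Δ : ℝ) ^ (4 * h + 2) * b := by
      intro i hi
      refine (sum_le_sum fun y _ => hb y).trans ?_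
      rw [sum_const, nsmul_eq_mul]
      apply mul_le_mul_of_nonneg_right _ hb0
      have h4 : ((Sub par dep q.2 i).card : ℝ) ≤ (Δ : ℝ) ^ i := by
        exact_mod_cast card_Sub hdep hch q.2 i
      exact h4.trans (pow_le_pow_right₀ hΔ1 (mem_range.1 hi).le)
    refine (sum_le_sum h3).trans (le_of_eq ?_)
    rw [sum_const, card_range, nsmul_eq_mul, mul_assoc]
  have hbl := fun q => block_expanding hκ hk hw hs hμ (X q) hδ (hXdeg q) (r := r)
    (lt_of_le_of_lt (mul_le_mul_of_nonneg_left (hXcard q) (by linarith : 0 ≤ 2 * μ)) hr)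
  choose l hl g hg1 hg2 using hbl
  let gi : V → ℕ := fun v => (g (key v) ⟨v, (hmX _ v).2 rfl⟩ : ℕ)
  have hgi : ∀ q v (hv : v ∈ X q), ((g q ⟨v, hv⟩ : Fin (l q)) : ℕ) = gi v := by
    intro q v hv
    have h1 := (hmX q v).1 hv
    subst h1
    rfl
  have hgir : ∀ v, gi v < r := fun v => lt_of_lt_of_le (g (key v) ⟨v, (hmX _ v).2 rfl⟩).2 (hl _)
  let pid : V → (ℕ × ι) × ℕ := fun v => (key v, gi v)
  let P : Finset ((ℕ × ι) × ℕ) := univ.image pid
  have hP : ∀ v, pid v ∈ P := fun v => mem_image.2 ⟨v, mem_univ _, rfl⟩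
  let e := P.equivFin
  let F : V → Fin P.card := fun v => e ⟨pid v, hP v⟩
  have hF : ∀ v i, F v = i ↔ pid v = ((e.symm i : P) : (ℕ × ι) × ℕ) := by
    intro v i
    show e ⟨pid v, hP v⟩ = i ↔ _
    rw [← Equiv.eq_symm_apply, Subtype.ext_iff]
  have hpart : ∀ v0 : V, part F (F v0) = (X (key v0)).filter fun v =>
      ∃ hv : v ∈ X (key v0), g (key v0) ⟨v, hv⟩ = g (key v0) ⟨v0, (hmX _ v0).2 rfl⟩ := by
    intro v0
    ext v
    rw [mem_part, mem_filter, hF]
    have h1 : ((e.symm (F v0) : P) : (ℕ × ι) × ℕ) = pid v0 := ((hF v0 (F v0)).1 rfl).symm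
    rw [h1]
    constructor
    · intro h2
      have h3 : key v = key v0 := congrArg Prod.fst h2
      have h4 : gi v = gi v0 := congrArg Prod.snd h2
      have h5 : v ∈ X (key v0) := (hmX _ v).2 h3
      refine ⟨h5, h5, Fin.ext ?_⟩
      rw [hgi _ v h5, h4]
    · rintro ⟨h5, h6, h7⟩
      have h3 : key v = key v0 := (hmX _ v).1 h5
      have h4 : gi v = gi v0 := by
        rw [← hgi _ v h6, h7]
      show (key v, gi v) = (key v0, gi v0)
      rw [h3, h4]
  have hsurj : ∀ i, ∃ v, F v = i := by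
    intro i
    obtain ⟨v, _, hv⟩ := mem_image.1 (e.symm i).2
    exact ⟨v, (hF v i).2 hv⟩
  refine ⟨P.card, F, fun i => ?_, fun i B hB => ?_, fun y => ?_⟩
  · obtain ⟨v, hv⟩ := hsurj i
    exact ⟨v, mem_part.2 hv⟩
  · obtain ⟨v0, rfl⟩ := hsurj i
    rw [hpart] at hB ⊢
    exact hg2 (key v0) _ B hB
  · have h1 : ((univ.filter fun i => ∃ v, F v = i ∧ z v = y).image
        fun i => ((e.symm i : P) : (ℕ × ι) × ℕ)) ⊆
        ((Icc (dep y / L - 1) (dep y / L + 1)) ×ˢ range r).image
          fun p => (((p.1, par^[dep y - (p.1 * L - h)] y) : ℕ × ι), p.2) := by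
      intro p hp
      obtain ⟨i, hi, rfl⟩ := mem_image.1 hp
      obtain ⟨v, hv1, hv2⟩ := (mem_filter.1 hi).2
      rw [← (hF v i).1 hv1]
      refine mem_image.2 ⟨(f v, gi v), ?_, ?_⟩
      · rw [mem_product, mem_Icc, mem_range]
        refine ⟨?_, hgir v⟩
        have h2 := hf2 v
        have h3 := hf3 v
        rw [hv2] at h2 h3
        have hL0 : 0 < L := by omega
        have h4 := Nat.div_add_mod (dep y) L
        have h5 := Nat.mod_lt (dep y) hL0
        constructor
        · have h6 : dep y / L < f v + 2 := by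
            apply Nat.lt_of_mul_lt_mul_right (a := L)
            calc dep y / L * L ≤ dep y := Nat.div_mul_le_self _ _
              _ < (f v + 1) * L + h := h2
              _ ≤ (f v + 2) * L := by
                have : (f v + 2) * L = (f v + 1) * L + L := by ring
                omega
          show dep y / L - 1 ≤ f v
          omega
        · have h6 : f v < dep y / L + 2 := by
            apply Nat.lt_of_mul_lt_mul_right (a := L)
            calc f v * L ≤ dep y + h := h3
              _ < (dep y / L + 1) * L + L := by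
                have h7 : (dep y / L + 1) * L = L * (dep y / L) + L := by ring
                omega
              _ = (dep y / L + 2) * L := by ring
          show f v ≤ dep y / L + 1
          omega
      · show ((f v, par^[dep y - (f v * L - h)] y), gi v) = (key v, gi v)
        rw [← hv2]
    have h2 := card_le_card h1
    rw [card_image_of_injective] at h2
    · refine h2.trans (card_image_le.trans ?_)
      rw [card_product, card_range, Nat.card_Icc]
      apply Nat.mul_le_mul_right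
      omega
    · intro i j hij
      exact e.symm.injective (Subtype.ext hij)

end

end Pool.Agent.H89Q
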