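import Pool.Agent.H89Q.Glue

/-!
# Thin trees from expanding parts and a rooted tree decomposition of the quotient
-/

set_option autoImplicit false
set_option linter.unusedSectionVars false

namespace Pool.Agent.H89Q

open Finset Pool.Agent.H85.Thin

section

variable {V : Type} [Fintype V] [DecidableEq V]

/-- the weights of the quotient -/
noncomputable def qw {l : ℕ} (w : V → V → ℝ) (f : V → Fin l) (a b : Fin l) : ℝ :=
  if a = b then 0 else E w (part f a) (part f b)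

/-- sums over unions of parts -/
theorem sum_parts {l : ℕ} (f : V → Fin l) (X : Finset (Fin l)) (F : V → ℝ) :
    ∑ a ∈ X, ∑ u ∈ part f a, F u = ∑ u ∈ univ.filter (fun x => f x ∈ X), F u := by
  rw [← Finset.sum_fiberwise_of_maps_to (s := univ.filter (fun x => f x ∈ X)) (t := X)
    (g := f) (fun v hv => (mem_filter.1 hv).2)]
  refine sum_congr rfl fun a ha => sum_congr ?_ fun _ _ => rfl
  ext x
  simp only [mem_part, mem_filter, mem_univ, true_and]
  constructor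
  · intro h
    rw [h]
    exact ⟨ha, rfl⟩
  · exact fun h => h.2

/-- a cut of the quotient is a cut of the graph -/
theorem quot_cut {l : ℕ} (w : V → V → ℝ) (f : V → Fin l) (A : Finset (Fin l)) :
    ∑ a ∈ A, ∑ b ∈ Aᶜ, E w (part f a) (part f b) = cut w (univ.filter fun x => f x ∈ A) := by
  have e2 : (univ.filter fun x => f x ∈ Aᶜ) = univ \ univ.filter fun x => f x ∈ A := by
    ext x
    simp only [mem_filter, mem_univ, true_and, mem_compl, mem_sdiff]
  unfold cut E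
  calc ∑ a ∈ A, ∑ b ∈ Aᶜ, ∑ u ∈ part f a, ∑ v ∈ part f b, w u v
      = ∑ a ∈ A, ∑ u ∈ part f a, ∑ b ∈ Aᶜ, ∑ v ∈ part f b, w u v :=
        sum_congr rfl fun a _ => sum_comm
    _ = ∑ u ∈ univ.filter (fun x => f x ∈ A), ∑ b ∈ Aᶜ, ∑ v ∈ part f b, w u v :=
        sum_parts f A _
    _ = _ := by
        refine sum_congr rfl fun u _ => ?_
        rw [sum_parts f Aᶜ, e2]

/-- **Expanding parts and a rooted tree decomposition of the quotient give thin trees.** -/
theorem thin_of_TD [Nonempty V] (mult : V → V → ℕ) (hsymm : ∀ u v, mult u v = mult v u) {k : ℕ}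
    {φ : ℝ} (hk : 0 < k) (hφ : 0 < φ) (hφ1 : φ ≤ 1)
    (hconn : ∀ A : Finset V, A.Nonempty → A ≠ univ →
      (k : ℝ) ≤ cut (fun u v => (mult u v : ℝ)) A)
    (hdeg : ∀ v, (k : ℝ) ≤ E (fun u v => (mult u v : ℝ)) {v} univ) {l : ℕ} (f : V → Fin l)
    (hsurj : ∀ i, (part f i).Nonempty)
    (hexp : ∀ i, ∀ B ⊆ part f i,
      φ * E (fun u v => (mult u v : ℝ)) B univ ≤
        E (fun u v => (mult u v : ℝ)) B (part f i \ B) ∨
      φ * E (fun u v => (mult u v : ℝ)) (part f i \ B) univ ≤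
        E (fun u v => (mult u v : ℝ)) B (part f i \ B))
    {ι : Type} [PartialOrder ι] [Fintype ι] {top : Fin l → ι} {al : Fin l → ι → Prop} {w : ℕ}
    (hw : 0 < w) (hTD : Pool.Agent.H37Thin.TD (qw (fun u v => (mult u v : ℝ)) f) top al w) :
    ∃ T : SimpleGraph V, T.IsTree ∧ (∀ u v, T.Adj u v → 0 < mult u v) ∧
      ∀ A : Finset V, (Set.ncard {p : V × V | p.1 ∈ A ∧ p.2 ∉ A ∧ T.Adj p.1 p.2} : ℝ) ≤
        200 * (w : ℝ) * ((w : ℝ) + 1) * (4 * (w : ℝ) + 5) * 6 ^ w / (φ ^ 2 * k) *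
          cut (fun u v => (mult u v : ℝ)) A := by
  classical
  set W : V → V → ℝ := fun u v => (mult u v : ℝ) with hWdef
  have hW : ∀ u v, 0 ≤ W u v := fun u v => Nat.cast_nonneg _
  have hk0 : (0 : ℝ) < k := by exact_mod_cast hk
  have hf : ∀ i, ∃ x, f x = i := fun i => by
    obtain ⟨x, hx⟩ := hsurj i
    exact ⟨x, mem_part.1 hx⟩
  have hmne : ∀ a b, 0 < qw W f a b → a ≠ b := by
    intro a b h hab
    unfold qw at h
    rw [if_pos hab] at h
    exact lt_irrefl _ h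
  have hmE : ∀ A' : Finset (Fin l), Pool.Agent.H99Thin.E (qw W f) A' A'ᶜ =
      ∑ a ∈ A', ∑ b ∈ A'ᶜ, E W (part f a) (part f b) := by
    intro A'
    unfold Pool.Agent.H99Thin.E
    refine sum_congr rfl fun a ha => sum_congr rfl fun b hb => if_neg ?_
    intro h
    rw [h] at ha
    exact (mem_compl.1 hb) ha
  have hconnQ : ∀ A' : Finset (Fin l), A'.Nonempty → A' ≠ univ →
      (k : ℝ) ≤ Pool.Agent.H99Thin.E (qw W f) A' A'ᶜ := by
    intro A' hA1 hA2
    rw [hmE, quot_cut]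
    refine hconn _ ?_ ?_
    · obtain ⟨a, ha⟩ := hA1
      obtain ⟨x, hx⟩ := hf a
      exact ⟨x, mem_filter.2 ⟨mem_univ _, by rw [hx]; exact ha⟩⟩
    · intro h
      apply hA2
      refine Finset.eq_univ_of_forall fun a => ?_
      obtain ⟨x, hx⟩ := hf a
      have h2 : x ∈ univ.filter fun x => f x ∈ A' := by rw [h]; exact mem_univ _
      rw [← hx]
      exact (mem_filter.1 h2).2
  obtain ⟨n, g, hg1, hg2, hg3, hg4, hg5⟩ := jobs hTD hw hk0 hconnQ
  have hw0 : (1 : ℝ) ≤ w := by exact_mod_cast hw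
  set q : ℕ := ⌈(k : ℝ) / (2 * w)⌉₊ with hqdef
  have hq1 : 0 < q := by
    rw [hqdef, Nat.ceil_pos]
    positivity
  have hqk : (k : ℝ) / (2 * w) ≤ q := Nat.le_ceil _
  have hNreal : ∀ i < n, k / (2 * (w : ℝ)) ≤
      ((∑ e ∈ g i, ∑ u ∈ part f e.1, ∑ v ∈ part f e.2, mult u v : ℕ) : ℝ) := by
    intro i hi
    refine (hg2 i hi).trans (le_of_eq ?_)
    rw [Nat.cast_sum]
    refine sum_congr rfl fun e he => ?_
    unfold qw
    rw [if_neg (hmne _ _ (hg1 i hi e he))]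
    unfold E
    push_cast
    rfl
  have hcard : ∀ i < n, q ≤ ∑ e ∈ g i, ∑ u ∈ part f e.1, ∑ v ∈ part f e.2, mult u v :=
    fun i hi => Nat.ceil_le.2 (hNreal i hi)
  set a : ℝ := 96 * (w : ℝ) * (w + 1) * (4 * w + 5) * 6 ^ w with ha
  have ha0 : 864 * (w : ℝ) ≤ a / 12 := by
    have h1 : (6 : ℝ) ^ 1 ≤ 6 ^ w := pow_le_pow_right₀ (by norm_num) hw
    have h2 : (18 : ℝ) ≤ (w + 1) * (4 * w + 5) := by nlinarith
    have h3 : (18 : ℝ) * 6 ≤ (w + 1) * (4 * w + 5) * 6 ^ w := by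
      have := mul_le_mul h2 h1 (by norm_num) (by nlinarith)
      linarith
    have h4 := mul_le_mul_of_nonneg_left h3 (by linarith : (0 : ℝ) ≤ 8 * w)
    have h5 : a / 12 = 8 * w * ((w + 1) * (4 * w + 5) * 6 ^ w) := by
      rw [ha]
      ring
    rw [h5]
    linarith
  have ha1 : 0 ≤ a := by positivity
  obtain ⟨T, hT1, hT2, hT3⟩ := glue mult hsymm hk0 hφ hφ1 hdeg f hsurj hexp
    hq1 g (fun i hi e he => hmne _ _ (hg1 i hi e he)) hcard hg3
    hg4 (α := a / k) (by positivity) (fun ch hch A' J hJ => by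
      have h1 := hg5 ch hch A'
      rw [hmE] at h1
      refine le_trans ?_ h1
      have h2 : J.card ≤ ((range n).filter fun i => Cross A' (ch i)).card :=
        card_le_card fun i hi => mem_filter.2 ⟨mem_range.2 (hJ i hi).1, (hJ i hi).2⟩
      exact_mod_cast h2)
  have hq0 : (0 : ℝ) < q := by exact_mod_cast hq1
  have hinvq : 1 / (q : ℝ) ≤ 2 * w * (1 / k) := by
    have h1 : 2 * (w : ℝ) * (1 / k) = 1 / (k / (2 * w)) := by
      field_simp
    rw [h1]
    exact one_div_le_one_div_of_le (by positivity) hqk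
  have hbound : a / k * (1 + 1 / φ) + 2 * (1 / q + 4 / k) / φ + 5 / (φ ^ 2 * k) ≤
      200 * (w : ℝ) * ((w : ℝ) + 1) * (4 * (w : ℝ) + 5) * 6 ^ w / (φ ^ 2 * k) := by
    have hφ2 : 0 < φ ^ 2 := by positivity
    have hφinv : 1 / φ ≤ 1 / φ ^ 2 := by
      apply one_div_le_one_div_of_le hφ2
      nlinarith
    have hφ3 : 1 ≤ 1 / φ ^ 2 := by
      rw [le_div_iff₀ hφ2]
      nlinarith
    have e1 : a / k * (1 + 1 / φ) ≤ 2 * a * (1 / φ ^ 2 * (1 / k)) := by
      have h2 : 1 + 1 / φ ≤ 2 * (1 / φ ^ 2) := by linarith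
      have h3 := mul_le_mul_of_nonneg_left h2 (by positivity : 0 ≤ a / k)
      refine h3.trans (le_of_eq ?_)
      ring
    have e2 : 2 * (1 / (q : ℝ) + 4 / k) / φ ≤ (4 * w + 8) * (1 / φ ^ 2 * (1 / k)) := by
      have h1 : 1 / (q : ℝ) + 4 / k ≤ (2 * w + 4) * (1 / k) := by
        have h2 : 4 / (k : ℝ) = 4 * (1 / k) := by ring
        rw [h2]
        linarith
      have h3 : 2 * (1 / (q : ℝ) + 4 / k) / φ = 2 * ((1 / (q : ℝ) + 4 / k) * (1 / φ)) := by ring
      rw [h3]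
      have h4 := mul_le_mul h1 hφinv (by positivity) (by positivity)
      nlinarith
    have e3 : 5 / (φ ^ 2 * k) = 5 * (1 / φ ^ 2 * (1 / k)) := by
      field_simp
    have e4 : 200 * (w : ℝ) * ((w : ℝ) + 1) * (4 * (w : ℝ) + 5) * 6 ^ w / (φ ^ 2 * k) =
        (2 * a + a / 12) * (1 / φ ^ 2 * (1 / k)) := by
      rw [ha]
      field_simp
      ring
    rw [e4]
    have h5 : 0 ≤ 1 / φ ^ 2 * (1 / (k : ℝ)) := by positivity
    have h6 : (4 * (w : ℝ) + 8 + 5) * (1 / φ ^ 2 * (1 / k)) ≤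
        a / 12 * (1 / φ ^ 2 * (1 / k)) := by
      apply mul_le_mul_of_nonneg_right _ h5
      linarith
    nlinarith
  exact ⟨T, hT1, hT2, fun A => (hT3 A).trans
    (mul_le_mul_of_nonneg_right hbound (E_nonneg hW _ _))⟩

end

end Pool.Agent.H89Q
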