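import Pool.Agent.H37Thin.Rooted
import Pool.Agent.H89Q.Host
import Pool.Agent.H89Q.Main

/-!
# Thin spanning trees in graphs whose vertices are distributed over the nodes of a tree
-/

set_option autoImplicit false
set_option linter.unusedSectionVars false

namespace Pool.Agent.H89Q

open Finset Pool.Agent.H85.Thin

section

variable {V : Type} [Fintype V] [DecidableEq V]

/-- the nodes near an expanding part are connected -/
theorem near_connected {w : V → V → ℝ} {κ φ : ℝ} (hκ : 0 < κ)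
    (hk : ∀ v, κ ≤ E w {v} univ) (hφ : 0 < φ) {ι : Type} (D : SimpleGraph ι) (z : V → ι)
    (hz : ∀ u v, 0 < w u v → z u = z v ∨ D.Adj (z u) (z v)) (P : Finset V)
    (hP : ∀ B ⊆ P, φ * E w B univ ≤ E w B (P \ B) ∨ φ * E w (P \ B) univ ≤ E w B (P \ B))
    (N : Set ι) (hN : ∀ x, x ∈ N ↔ ∃ v ∈ P, z v = x ∨ D.Adj (z v) x) :
    (D.induce N).Preconnected := by
  classical
  have hzN : ∀ v ∈ P, z v ∈ N := fun v hv => (hN _).2 ⟨v, hv, Or.inl rfl⟩
  have key : ∀ u (hu : u ∈ P), ∀ v (hv : v ∈ P),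
      (D.induce N).Reachable ⟨z u, hzN u hu⟩ ⟨z v, hzN v hv⟩ := by
    intro u hu
    by_contra hcon
    push Not at hcon
    obtain ⟨v, hv, hv'⟩ := hcon
    set B : Finset V := P.filter fun v => ∃ hv : v ∈ P,
      (D.induce N).Reachable ⟨z u, hzN u hu⟩ ⟨z v, hzN v hv⟩ with hB
    have huB : u ∈ B := mem_filter.2 ⟨hu, hu, SimpleGraph.Reachable.refl _⟩
    have hvB : v ∈ P \ B := mem_sdiff.2 ⟨hv, fun h => hv' (by
      obtain ⟨_, h1, h2⟩ := mem_filter.1 h
      exact h2)⟩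
    have hBP : B ⊆ P := filter_subset _ _
    have h1 := vol_pos hκ hk (X := B) ⟨u, huB⟩
    have h2 := vol_pos hκ hk (X := P \ B) ⟨v, hvB⟩
    have h3 : 0 < E w B (P \ B) := by
      rcases hP B hBP with h | h
      · exact lt_of_lt_of_le (mul_pos hφ h1) h
      · exact lt_of_lt_of_le (mul_pos hφ h2) h
    obtain ⟨a, ha, h4⟩ : ∃ a ∈ B, 0 < ∑ c ∈ P \ B, w a c := by
      by_contra hc
      push Not at hc
      exact absurd h3 (not_lt.2 (sum_nonpos hc))
    obtain ⟨c, hc, h5⟩ : ∃ c ∈ P \ B, 0 < w a c := by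
      by_contra hc
      push Not at hc
      exact absurd h4 (not_lt.2 (sum_nonpos hc))
    obtain ⟨haP, haP', har⟩ := mem_filter.1 ha
    obtain ⟨hcP, hcB⟩ := mem_sdiff.1 hc
    apply hcB
    refine mem_filter.2 ⟨hcP, hcP, har.trans ?_⟩
    rcases hz a c h5 with h | h
    · have : (⟨z a, hzN a haP'⟩ : N) = ⟨z c, hzN c hcP⟩ := Subtype.ext h
      rw [this]
    · exact SimpleGraph.Adj.reachable (SimpleGraph.induce_adj.2 h)
  have key2 : ∀ x (hx : x ∈ N), ∃ v, ∃ hv : v ∈ P,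
      (D.induce N).Reachable ⟨x, hx⟩ ⟨z v, hzN v hv⟩ := by
    intro x hx
    obtain ⟨v, hv, h⟩ := (hN x).1 hx
    refine ⟨v, hv, ?_⟩
    rcases h with h | h
    · have : (⟨x, hx⟩ : N) = ⟨z v, hzN v hv⟩ := Subtype.ext h.symm
      rw [this]
    · exact SimpleGraph.Adj.reachable (SimpleGraph.induce_adj.2 h.symm)
  rintro ⟨x, hx⟩ ⟨y, hy⟩
  obtain ⟨u, hu, h1⟩ := key2 x hx
  obtain ⟨v, hv, h2⟩ := key2 y hy
  exact h1.trans ((key u hu v hv).trans h2.symm)

/-- **Thin trees in graphs distributed over the nodes of a tree.** -/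
theorem host_thin [Nonempty V] (mult : V → V → ℕ) (hsymm : ∀ u v, mult u v = mult v u)
    (hloop : ∀ v, mult v v = 0) {k : ℕ} (hk : 0 < k)
    (hconn : ∀ A : Finset V, A.Nonempty → A ≠ univ →
      (k : ℝ) ≤ cut (fun u v => (mult u v : ℝ)) A)
    (hdeg : ∀ v, (k : ℝ) ≤ E (fun u v => (mult u v : ℝ)) {v} univ) {μ b Δ : ℕ}
    (hμ : ∀ u v, mult u v ≤ μ) (hΔ : 1 ≤ Δ) {ι : Type} [Fintype ι] [DecidableEq ι] (D : SimpleGraph ι)
    (hD : D.IsTree) (hDΔ : ∀ x, Set.ncard {y | D.Adj x y} ≤ Δ) (z : V → ι)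
    (hb : ∀ x, (univ.filter fun v => z v = x).card ≤ b)
    (hz : ∀ u v, 0 < mult u v → z u = z v ∨ D.Adj (z u) (z v)) {C : ℝ}
    (hC : (b : ℝ) * μ ≤ C * k) {h r : ℕ} (hh : 1 ≤ h)
    (hhC : 16 * (Δ : ℝ) * ((Δ : ℝ) + 1) * C ^ 2 < 4 ^ h)
    (hr : 16 * (Δ : ℝ) * (((4 * h + 2 : ℕ) : ℝ) * (Δ : ℝ) ^ (4 * h + 2)) * C < (r : ℝ) + 1) {w : ℕ}
    (hw0 : 0 < w) (hw : 3 * r * (Δ + 1) ≤ w + 1) :
    ∃ T : SimpleGraph V, T.IsTree ∧ (∀ u v, T.Adj u v → 0 < mult u v) ∧
      ∀ A : Finset V, (Set.ncard {p : V × V | p.1 ∈ A ∧ p.2 ∉ A ∧ T.Adj p.1 p.2} : ℝ) ≤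
        200 * (w : ℝ) * ((w : ℝ) + 1) * (4 * (w : ℝ) + 5) * 6 ^ w /
          ((1 / (8 * (Δ : ℝ)) / (24 * ((r : ℝ) + 2) ^ 2)) ^ 2 * k) *
          cut (fun u v => (mult u v : ℝ)) A := by
  classical
  set W : V → V → ℝ := fun u v => (mult u v : ℝ) with hWdef
  have hW : ∀ u v, 0 ≤ W u v := fun u v => Nat.cast_nonneg _
  have hWs : ∀ u v, W u v = W v u := fun u v => by rw [hWdef]; exact congrArg _ (hsymm u v)
  have hW0 : ∀ v, W v v = 0 := fun v => by
    show ((mult v v : ℕ) : ℝ) = 0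
    rw [hloop, Nat.cast_zero]
  have hWμ : ∀ u v, W u v ≤ (μ : ℝ) := fun u v => by
    show ((mult u v : ℕ) : ℝ) ≤ μ
    exact_mod_cast hμ u v
  have hWpos : ∀ u v, 0 < W u v → 0 < mult u v := fun u v h => by
    have h' : (0 : ℝ) < (mult u v : ℝ) := h
    exact_mod_cast h'
  have hk0 : (0 : ℝ) < k := by exact_mod_cast hk
  have hΔ1 : (1 : ℝ) ≤ Δ := by exact_mod_cast hΔ
  have hΔ0 : (0 : ℝ) < Δ := by linarith
  obtain ⟨par, dep, hr1, hr2, hr3⟩ := exists_rooted D hD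
  have hDn : ∀ x, (univ.filter fun y => D.Adj x y).card ≤ Δ := by
    intro x
    have h1 := hDΔ x
    rwa [Set.ncard_eq_toFinset_card', Set.toFinset_ofPred] at h1
  have hz' : ∀ u v, 0 < W u v → z u = z v ∨ (z u = par (z v) ∧ dep (z v) = dep (z u) + 1) ∨
      (z v = par (z u) ∧ dep (z u) = dep (z v) + 1) := by
    intro u v huv
    rcases hz u v (hWpos u v huv) with h1 | h1
    · exact Or.inl h1
    · exact Or.inr (hr3 _ _ h1)
  -- the degrees
  have hDm : ∀ v, E W {v} univ ≤ ((Δ : ℝ) + 1) * (b * μ) := by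
    intro v
    have h1 : E W {v} univ = E W {v} ((insert (z v) (univ.filter fun y => D.Adj (z v) y)).biUnion
        fun y => univ.filter fun u => z u = y) := by
      rw [E_singleton, E_singleton]
      symm
      refine sum_subset (subset_univ _) fun u _ hu => ?_
      by_contra hne
      have hpos : 0 < W v u := lt_of_le_of_ne (hW v u) (Ne.symm hne)
      apply hu
      rw [mem_biUnion]
      refine ⟨z u, ?_, mem_filter.2 ⟨mem_univ _, rfl⟩⟩
      rw [mem_insert]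
      rcases hz v u (hWpos v u hpos) with h1 | h1
      · exact Or.inl h1.symm
      · exact Or.inr (mem_filter.2 ⟨mem_univ _, h1⟩)
    rw [h1, E_singleton]
    refine (sum_le_sum fun u _ => hWμ v u).trans ?_
    rw [sum_const, nsmul_eq_mul, ← mul_assoc]
    apply mul_le_mul_of_nonneg_right _ (Nat.cast_nonneg _)
    have h2 : ((insert (z v) (univ.filter fun y => D.Adj (z v) y)).biUnion
        fun y => univ.filter fun u => z u = y).card ≤ (Δ + 1) * b := by
      refine card_biUnion_le.trans ((sum_le_sum fun y _ => hb y).trans ?_)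
      rw [sum_const, smul_eq_mul]
      apply Nat.mul_le_mul_right
      exact (card_insert_le _ _).trans (Nat.add_le_add_right (hDn _) 1)
    exact_mod_cast h2
  set δ : ℝ := 1 / (8 * (Δ : ℝ)) with hδdef
  have hδ0 : 0 < δ := by positivity
  have hδΔ : 2 * δ * Δ = 1 / 4 := by
    rw [hδdef]
    field_simp
    norm_num
  have hδ1 : δ ≤ 1 / 8 := by
    rw [hδdef]
    apply one_div_le_one_div_of_le (by norm_num)
    linarith
  have hbμ0 : (0 : ℝ) ≤ b * μ := by positivity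
  have hsq : ((b : ℝ) * μ) ^ 2 ≤ (C * k) ^ 2 := by
    apply pow_le_pow_left₀ hbμ0 hC
  obtain ⟨l, F, hF1, hF2, hF3⟩ := exists_host_parts hW hWs hW0 (b := (b : ℝ)) hδ0
    (by linarith : δ ≤ 1 / 4) hk0 hdeg hWμ
    (Nat.cast_nonneg _) hDm (by positivity) (Nat.cast_nonneg _) hΔ
    (fun a ha => (hr1 a ha).2)
    (fun x => by
      refine le_trans (card_le_card fun y hy => ?_) (hDn x)
      obtain ⟨h1, h2⟩ := (mem_filter.1 hy).2
      have h3 := (hr1 y h1).1
      rw [h2] at h3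
      exact mem_filter.2 ⟨mem_univ _, h3.symm⟩) z hz'
    (fun x => by exact_mod_cast hb x) hh
    (fun j hj => by
      have e1 : 4 * (μ : ℝ) * ((2 * δ) ^ j * ((Δ : ℝ) ^ (j + 1) * (b * (((Δ : ℝ) + 1) * (b * μ))))) =
          4 * Δ * (Δ + 1) * (b * μ) ^ 2 * (2 * δ * Δ) ^ j := by
        rw [mul_pow (2 * δ) (Δ : ℝ) j, pow_succ]
        ring
      rw [e1, hδΔ]
      have h1 : 4 * (Δ : ℝ) * (Δ + 1) * (b * μ) ^ 2 * (1 / 4) ^ j ≤
          4 * (Δ : ℝ) * (Δ + 1) * (C * k) ^ 2 * (1 / 4) ^ j := by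
        apply mul_le_mul_of_nonneg_right _ (by positivity)
        exact mul_le_mul_of_nonneg_left hsq (by positivity)
      refine lt_of_le_of_lt h1 ?_
      have h2 : (4 : ℝ) ^ h ≤ 4 ^ (j + 1) := pow_le_pow_right₀ (by norm_num) hj
      have h3 : 4 * (Δ : ℝ) * (Δ + 1) * C ^ 2 < 4 ^ j := by
        rw [pow_succ] at h2
        linarith
      have h4 : (4 : ℝ) ^ j * (1 / 4) ^ j = 1 := by
        rw [← mul_pow]
        norm_num
      have h5 : 4 * (Δ : ℝ) * (Δ + 1) * C ^ 2 * (1 / 4) ^ j < 1 := by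
        have h5 := mul_lt_mul_of_pos_right h3 (by positivity : (0 : ℝ) < (1 / 4) ^ j)
        rwa [h4] at h5
      have h6 : 4 * (Δ : ℝ) * (Δ + 1) * (C * k) ^ 2 * (1 / 4) ^ j =
          k ^ 2 * (4 * (Δ : ℝ) * (Δ + 1) * C ^ 2 * (1 / 4) ^ j) := by ring
      rw [h6]
      have h7 : (0 : ℝ) < (k : ℝ) ^ 2 := by positivity
      nlinarith)
    (r := r)
    (by
      have h1 : 2 * (μ : ℝ) * (((4 * h + 2 : ℕ) : ℝ) * (Δ : ℝ) ^ (4 * h + 2) * b) ≤
          2 * (((4 * h + 2 : ℕ) : ℝ) * (Δ : ℝ) ^ (4 * h + 2)) * (C * k) := by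
        have h2 : 2 * (μ : ℝ) * (((4 * h + 2 : ℕ) : ℝ) * (Δ : ℝ) ^ (4 * h + 2) * b) =
            2 * (((4 * h + 2 : ℕ) : ℝ) * (Δ : ℝ) ^ (4 * h + 2)) * (b * μ) := by ring
        rw [h2]
        exact mul_le_mul_of_nonneg_left hC (by positivity)
      refine lt_of_le_of_lt h1 ?_
      have h3 : 2 * (((4 * h + 2 : ℕ) : ℝ) * (Δ : ℝ) ^ (4 * h + 2)) * (C * k) =
          16 * (Δ : ℝ) * (((4 * h + 2 : ℕ) : ℝ) * (Δ : ℝ) ^ (4 * h + 2)) * C * (δ * k) := by
        rw [hδdef]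
        field_simp
        ring
      rw [h3]
      exact mul_lt_mul_of_pos_right hr (by positivity))
  -- the tree decomposition
  set φ : ℝ := δ / (24 * ((r : ℝ) + 2) ^ 2) with hφdef
  have hφ0 : 0 < φ := by positivity
  have hφ1 : φ ≤ 1 := by
    rw [hφdef, div_le_one (by positivity)]
    nlinarith [Nat.cast_nonneg (α := ℝ) r]
  let X : ι → Finset (Fin l) := fun x => univ.filter fun i =>
    ∃ v, F v = i ∧ (z v = x ∨ D.Adj (z v) x)
  have hmX : ∀ x i, i ∈ X x ↔ ∃ v, F v = i ∧ (z v = x ∨ D.Adj (z v) x) := fun x i => by simp [X]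
  have hqs : ∀ i j, qw W F i j = qw W F j i := by
    intro i j
    unfold qw
    by_cases hij : i = j
    · rw [if_pos hij, if_pos hij.symm]
    · rw [if_neg hij, if_neg (Ne.symm hij), E_comm hWs]
  obtain ⟨po, top, hTD⟩ := Pool.Agent.H37Thin.exists_TD (m := qw W F)
    (fun i j => by
      unfold qw
      split_ifs
      · exact le_rfl
      · exact E_nonneg hW _ _) hqs (w := w) D hD X
    (fun i => by
      obtain ⟨v, hv⟩ := hF1 i
      exact ⟨z v, (hmX _ _).2 ⟨v, mem_part.1 hv, Or.inl rfl⟩⟩)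
    (fun i j hij => by
      unfold qw at hij
      split_ifs at hij with h1
      · exact absurd hij (lt_irrefl _)
      · obtain ⟨a, ha, h4⟩ : ∃ a ∈ part F i, 0 < ∑ c ∈ part F j, W a c := by
          by_contra hc
          push Not at hc
          exact absurd hij (not_lt.2 (sum_nonpos hc))
        obtain ⟨c, hc, h5⟩ : ∃ c ∈ part F j, 0 < W a c := by
          by_contra hc
          push Not at hc
          exact absurd h4 (not_lt.2 (sum_nonpos hc))
        refine ⟨z a, (hmX _ _).2 ⟨a, mem_part.1 ha, Or.inl rfl⟩,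
          (hmX _ _).2 ⟨c, mem_part.1 hc, ?_⟩⟩
        rcases hz a c (hWpos a c h5) with h6 | h6
        · exact Or.inl h6.symm
        · exact Or.inr h6.symm)
    (fun i => near_connected hk0 hdeg hφ0 D z (fun u v huv => hz u v (hWpos u v huv))
      (part F i) (hF2 i) _ (fun x => by
        show i ∈ X x ↔ _
        rw [hmX]
        constructor
        · rintro ⟨v, hv1, hv2⟩
          exact ⟨v, mem_part.2 hv1, hv2⟩
        · rintro ⟨v, hv1, hv2⟩
          exact ⟨v, mem_part.1 hv1, hv2⟩))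
    (fun x => by
      refine le_trans ?_ hw
      have h1 : X x ⊆ (insert x (univ.filter fun y => D.Adj x y)).biUnion fun y =>
          univ.filter fun i => ∃ v, F v = i ∧ z v = y := by
        intro i hi
        obtain ⟨v, hv1, hv2⟩ := (hmX x i).1 hi
        rw [mem_biUnion]
        refine ⟨z v, ?_, mem_filter.2 ⟨mem_univ _, v, hv1, rfl⟩⟩
        rw [mem_insert]
        rcases hv2 with hv2 | hv2
        · exact Or.inl hv2
        · exact Or.inr (mem_filter.2 ⟨mem_univ _, hv2.symm⟩)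
      refine (card_le_card h1).trans (card_biUnion_le.trans ?_)
      refine (sum_le_sum fun y _ => hF3 y).trans ?_
      rw [sum_const, smul_eq_mul, mul_comm]
      apply Nat.mul_le_mul_left
      exact (card_insert_le _ _).trans (Nat.add_le_add_right (hDn _) 1))
  exact thin_of_TD mult hsymm hk hφ0 hφ1 hconn hdeg F hF1 hF2 hw0 hTD

end

end Pool.Agent.H89Q
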