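import Pool.Agent.H89Q.Casc

/-!
# Boundaries in graphs whose vertices are distributed over the nodes of a rooted tree
-/

set_option autoImplicit false
set_option linter.unusedSectionVars false

namespace Pool.Agent.H89Q

open Finset Pool.Agent.H85.Thin

/-- a rooted tree: the parents and the depths -/
theorem exists_rooted {ι : Type} (D : SimpleGraph ι) (hD : D.IsTree) :
    ∃ (par : ι → ι) (dep : ι → ℕ),
      (∀ a, 0 < dep a → D.Adj a (par a) ∧ dep a = dep (par a) + 1) ∧
      (∀ a b, dep a = 0 → dep b = 0 → a = b) ∧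
      ∀ a b, D.Adj a b → (a = par b ∧ dep b = dep a + 1) ∨ (b = par a ∧ dep a = dep b + 1) := by
  classical
  obtain ⟨r⟩ := hD.connected.nonempty
  choose P hP hP' using fun a => hD.existsUnique_path a r
  have huniq : ∀ a (p : D.Walk a r), p.IsPath → p = P a := fun a p hp => hP' a p hp
  have hsuf : ∀ a b, b ∈ (P a).support → (P b).support <:+ (P a).support := by
    intro a b hb
    have h1 := (P a).support_dropUntil_suffix_support hb
    rwa [huniq b _ ((hP a).dropUntil hb)] at h1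
  have hcons : ∀ a b, D.Adj a b → a ∉ (P b).support →
      (P a).snd = b ∧ (P a).length = (P b).length + 1 := by
    intro a b hab h
    have h3 : (SimpleGraph.Walk.cons hab (P b)).IsPath := by
      rw [SimpleGraph.Walk.cons_isPath_iff]
      exact ⟨hP b, h⟩
    have h4 := huniq a _ h3
    rw [← h4]
    exact ⟨by simp, by simp⟩
  have hadj : ∀ a b, D.Adj a b → a ∉ (P b).support ∨ b ∉ (P a).support := by
    intro a b hab
    by_contra hcon
    push Not at hcon
    obtain ⟨h1, h2⟩ := hcon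
    have h3 := (hsuf a b h2).eq_of_length_le (hsuf b a h1).length_le
    have h4 := (P a).cons_tail_support.symm
    rw [← h3, ← (P b).cons_tail_support] at h4
    exact hab.ne (List.cons.inj h4).1.symm
  refine ⟨fun a => (P a).snd, fun a => (P a).length, fun a ha => ?_, fun a b ha hb => ?_,
    fun a b hab => ?_⟩
  · have hn : ¬ (P a).Nil := by
      intro h
      have h1 : (P a).length = 0 := SimpleGraph.Walk.length_eq_zero_iff.2 h
      have h2 : 0 < (P a).length := ha
      omega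
    have h1 := (P a).adj_snd hn
    refine ⟨h1, ?_⟩
    have h2 : (P a).tail.IsPath := (hP a).tail
    have h3 := huniq _ _ h2
    have h4 := SimpleGraph.Walk.length_tail_add_one hn
    show (P a).length = (P (P a).snd).length + 1
    rw [← h3, h4]
  · have h1 := SimpleGraph.Walk.eq_of_length_eq_zero ha
    have h2 := SimpleGraph.Walk.eq_of_length_eq_zero hb
    rw [h1, h2]
  · rcases hadj a b hab with h | h
    · right
      have := hcons a b hab h
      exact ⟨this.1.symm, this.2⟩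
    · left
      have := hcons b a hab.symm h
      exact ⟨this.1.symm, this.2⟩

section

variable {ι : Type} [Fintype ι] [DecidableEq ι]

/-- the nodes at distance `i` below `x` -/
def Sub (par : ι → ι) (dep : ι → ℕ) (x : ι) (i : ℕ) : Finset ι :=
  univ.filter fun y => i ≤ dep y ∧ par^[i] y = x

theorem card_Sub {par : ι → ι} {dep : ι → ℕ} {Δ : ℕ}
    (hdep : ∀ a, 0 < dep a → dep a = dep (par a) + 1)
    (hch : ∀ x, (univ.filter fun y => 0 < dep y ∧ par y = x).card ≤ Δ) (x : ι) (i : ℕ) :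
    (Sub par dep x i).card ≤ Δ ^ i := by
  induction i with
  | zero =>
    have h1 : Sub par dep x 0 ⊆ {x} := by
      intro y hy
      have h2 := (mem_filter.1 hy).2.2
      rw [Function.iterate_zero, id] at h2
      rw [mem_singleton, h2]
    rw [pow_zero]
    exact (card_le_card h1).trans (card_singleton x).le
  | succ i ih =>
    have h1 : Sub par dep x (i + 1) ⊆ (Sub par dep x i).biUnion fun x' =>
        univ.filter fun y => 0 < dep y ∧ par y = x' := by
      intro y hy
      have h2 := (mem_filter.1 hy).2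
      rw [mem_biUnion]
      have h3 := hdep y (by omega)
      refine ⟨par y, mem_filter.2 ⟨mem_univ _, by omega, ?_⟩,
        mem_filter.2 ⟨mem_univ _, by omega, rfl⟩⟩
      rw [← h2.2, Function.iterate_succ_apply]
    refine (card_le_card h1).trans (card_biUnion_le.trans ?_)
    refine (sum_le_sum fun x' _ => hch x').trans ?_
    rw [sum_const, smul_eq_mul, pow_succ]
    exact Nat.mul_le_mul_right _ ih

variable {V : Type} [Fintype V] [DecidableEq V] {w : V → V → ℝ}

/-- the volume of the vertices of a set of nodes -/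
theorem vol_nodes {b Dm : ℝ} (hDm : ∀ v, E w {v} univ ≤ Dm)
    (hDm0 : 0 ≤ Dm) (z : V → ι) (hb : ∀ x, ((univ.filter fun v => z v = x).card : ℝ) ≤ b)
    (Y : Finset ι) {X : Finset V} (hX : ∀ v ∈ X, z v ∈ Y) :
    E w X univ ≤ (Y.card : ℝ) * (b * Dm) := by
  have h1 : (X.card : ℝ) ≤ Y.card * b := by
    have h2 : X ⊆ Y.biUnion fun y => univ.filter fun v => z v = y := fun v hv =>
      mem_biUnion.2 ⟨z v, hX v hv, mem_filter.2 ⟨mem_univ _, rfl⟩⟩
    have h3 : (X.card : ℝ) ≤ ∑ y ∈ Y, ((univ.filter fun v => z v = y).card : ℝ) := by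
      exact_mod_cast (card_le_card h2).trans card_biUnion_le
    refine h3.trans ((sum_le_sum fun y _ => hb y).trans (le_of_eq ?_))
    rw [sum_const, nsmul_eq_mul]
  have h2 : E w X univ ≤ X.card * Dm := by
    rw [E_sum_left]
    refine (sum_le_sum fun v _ => hDm v).trans (le_of_eq ?_)
    rw [sum_const, nsmul_eq_mul]
  have h3 := mul_le_mul_of_nonneg_right h1 hDm0
  linarith

/-- **A boundary near the depth `B`.** -/
theorem exists_boundary (hw : ∀ u v, 0 ≤ w u v) (hs : ∀ u v, w u v = w v u)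
    (h0 : ∀ v, w v v = 0) {δ κ μ b Dm : ℝ} (hδ : 0 ≤ δ) (hδ1 : δ ≤ 1 / 4) (hκ : 0 < κ)
    (hk : ∀ v, κ ≤ E w {v} univ) (hμ : ∀ u v, w u v ≤ μ) (hμ0 : 0 ≤ μ)
    (hDm : ∀ v, E w {v} univ ≤ Dm) (hDm0 : 0 ≤ Dm) (hb0 : 0 ≤ b)
    {par : ι → ι} {dep : ι → ℕ} {Δ : ℕ} (hΔ : 1 ≤ Δ)
    (hdep : ∀ a, 0 < dep a → dep a = dep (par a) + 1)
    (hch : ∀ x, (univ.filter fun y => 0 < dep y ∧ par y = x).card ≤ Δ) (z : V → ι)
    (hz : ∀ u v, 0 < w u v → z u = z v ∨ (z u = par (z v) ∧ dep (z v) = dep (z u) + 1) ∨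
      (z v = par (z u) ∧ dep (z u) = dep (z v) + 1))
    (hb : ∀ x, ((univ.filter fun v => z v = x).card : ℝ) ≤ b) {h : ℕ} (hh : 1 ≤ h)
    (hbig : ∀ j, h ≤ j + 1 → 4 * μ * ((2 * δ) ^ j * ((Δ : ℝ) ^ (j + 1) * (b * Dm))) < κ ^ 2)
    (B : ℕ) :
    ∃ S : Finset V, (∀ v, B + h ≤ dep (z v) → v ∈ S) ∧ (∀ v, dep (z v) + h + 1 ≤ B → v ∉ S) ∧
      Good w δ S ∧ Good w δ (univ \ S) := by
  classical
  have hdz : ∀ u v, 0 < w u v → dep (z u) ≤ dep (z v) + 1 := by
    intro u v huv
    rcases hz u v huv with h1 | h1 | h1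
    · rw [h1]; omega
    · omega
    · omega
  -- ancestors of neighbours
  have hanc : ∀ u v, 0 < w u v → ∀ j, j ≤ dep (z u) → j ≤ dep (z v) →
      par^[dep (z u) - j] (z u) = par^[dep (z v) - j] (z v) := by
    intro u v huv j hu hv
    rcases hz u v huv with h1 | h1 | h1
    · rw [h1]
    · have h2 : dep (z v) - j = (dep (z u) - j) + 1 := by omega
      rw [h2, Function.iterate_succ_apply, ← h1.1]
    · have h2 : dep (z u) - j = (dep (z v) - j) + 1 := by omega
      rw [h2, Function.iterate_succ_apply, ← h1.1]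
  set S0 : Finset V := univ.filter fun v => B ≤ dep (z v) with hS0
  have hmem0 : ∀ v, v ∈ S0 ↔ B ≤ dep (z v) := fun v => by simp [hS0]
  obtain ⟨S1, hS1U, hS1g, hS1m⟩ := exists_max_good (w := w) hw δ S0
  obtain ⟨G2, hG2U, hG2g, hG2m⟩ := exists_max_good (w := w) hw δ (univ \ S1)
  have hS10 : ∀ v ∈ S1, B ≤ dep (z v) := fun v hv => (hmem0 v).1 (hS1U hv)
  -- the lower side
  have hdown : ∀ v, B + h ≤ dep (z v) → v ∈ S1 := by
    intro v hv
    by_contra hvS
    obtain ⟨j, hj⟩ : ∃ j, dep (z v) = B + (j + 1) := ⟨dep (z v) - B - 1, by omega⟩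
    set x : ι := par^[dep (z v) - B] (z v) with hx
    let N : ℕ → Finset V := fun i => univ.filter fun u => (B ≤ dep (z u) ∧ u ∉ S1) ∧
      B + i ≤ dep (z u) ∧ par^[dep (z u) - B] (z u) = x
    have hmN : ∀ i u, u ∈ N i ↔ (B ≤ dep (z u) ∧ u ∉ S1) ∧
      B + i ≤ dep (z u) ∧ par^[dep (z u) - B] (z u) = x := fun i u => by simp [N]
    have h1 := chain (N := N) hw hs h0 hδ hδ1 hκ hk hμ hμ0 hS1g hS1U hS1m
      (fun i u hu => by
        rw [hmN] at hu
        rw [mem_sdiff, hmem0]
        exact hu.1)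
      (fun i u hu => by
        rw [hmN] at hu ⊢
        exact ⟨hu.1, by omega, hu.2.2⟩)
      (fun i u hu u' hu' huu => by
        rw [hmN] at hu ⊢
        have h2 := hdz u u' huu
        refine ⟨⟨by omega, hu'⟩, by omega, ?_⟩
        rw [← hanc u u' huu B (by omega) (by omega)]
        exact hu.2.2) j (v := v)
      (by
        rw [hmN]
        exact ⟨⟨by omega, hvS⟩, by omega, rfl⟩)
    have h2 : E w (N 0 \ N 1) univ ≤ ((({x} : Finset ι).card : ℕ) : ℝ) * (b * Dm) := by
      refine vol_nodes hDm hDm0 z hb {x} fun u hu => ?_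
      rw [mem_sdiff] at hu
      obtain ⟨h3, h4, h5⟩ := (hmN 0 u).1 hu.1
      have h6 := fun h => hu.2 ((hmN 1 u).2 h)
      have h7 : dep (z u) = B := by
        by_contra hne
        exact h6 ⟨h3, by omega, h5⟩
      rw [h7, Nat.sub_self, Function.iterate_zero, id] at h5
      rw [mem_singleton, h5]
    rw [card_singleton, Nat.cast_one, one_mul] at h2
    have h3 := hbig j (by omega)
    have h4 : (1 : ℝ) ≤ (Δ : ℝ) ^ (j + 1) := one_le_pow₀ (by exact_mod_cast hΔ)
    have h5 : b * Dm ≤ (Δ : ℝ) ^ (j + 1) * (b * Dm) :=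
      le_mul_of_one_le_left (mul_nonneg hb0 hDm0) h4
    have h6 : (2 * δ) ^ j * E w (N 0 \ N 1) univ ≤
        (2 * δ) ^ j * ((Δ : ℝ) ^ (j + 1) * (b * Dm)) :=
      mul_le_mul_of_nonneg_left (h2.trans h5) (pow_nonneg (by linarith) j)
    have h7 := mul_le_mul_of_nonneg_left h6 (by linarith : 0 ≤ 4 * μ)
    linarith
  -- the upper side
  have hup : ∀ v, dep (z v) + h + 1 ≤ B → v ∈ G2 := by
    intro v hv
    by_contra hvG
    -- the topmost vertex of the rest
    have hM : (univ.filter fun u => u ∉ S1 ∧ u ∉ G2).Nonempty :=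
      ⟨v, mem_filter.2 ⟨mem_univ _, fun hv1 => by have := hS10 v hv1; omega, hvG⟩⟩
    obtain ⟨t, ht, htmin⟩ := exists_min_image _ (fun u => dep (z u)) hM
    have htv : dep (z t) ≤ dep (z v) := htmin v
      (mem_filter.2 ⟨mem_univ _, fun hv1 => by have := hS10 v hv1; omega, hvG⟩)
    obtain ⟨j, hj⟩ : ∃ j, dep (z t) + (j + 1) + 1 = B := ⟨B - dep (z t) - 2, by omega⟩
    have htm := (mem_filter.1 ht).2
    let N : ℕ → Finset V := fun i => univ.filter fun u => (u ∉ S1 ∧ u ∉ G2) ∧
      dep (z u) + i + 1 ≤ B ∧ par^[dep (z u) - dep (z t)] (z u) = z t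
    have hmN : ∀ i u, u ∈ N i ↔ (u ∉ S1 ∧ u ∉ G2) ∧
      dep (z u) + i + 1 ≤ B ∧ par^[dep (z u) - dep (z t)] (z u) = z t := fun i u => by simp [N]
    have hmin : ∀ u, u ∉ S1 → u ∉ G2 → dep (z t) ≤ dep (z u) := fun u h1 h2 =>
      htmin u (mem_filter.2 ⟨mem_univ _, h1, h2⟩)
    have h1 := chain (N := N) hw hs h0 hδ hδ1 hκ hk hμ hμ0 hG2g hG2U hG2m
      (fun i u hu => by
        rw [hmN] at hu
        rw [mem_sdiff, mem_sdiff]
        exact ⟨⟨mem_univ _, hu.1.1⟩, hu.1.2⟩)
      (fun i u hu => by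
        rw [hmN] at hu ⊢
        exact ⟨hu.1, by omega, hu.2.2⟩)
      (fun i u hu u' hu' huu => by
        rw [hmN] at hu ⊢
        have h2 := hdz u' u (by rw [hs]; exact huu)
        have h3 : u' ∉ S1 := fun h4 => by
          have := hS10 u' h4
          omega
        refine ⟨⟨h3, hu'⟩, by omega, ?_⟩
        rw [← hanc u u' huu (dep (z t)) (hmin u hu.1.1 hu.1.2) (hmin u' h3 hu')]
        exact hu.2.2) j (v := t)
      (by
        rw [hmN]
        refine ⟨htm, by omega, ?_⟩
        rw [Nat.sub_self, Function.iterate_zero, id])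
    have h2 : E w (N 0 \ N 1) univ ≤ ((Sub par dep (z t) (j + 1)).card : ℝ) * (b * Dm) := by
      refine vol_nodes hDm hDm0 z hb _ fun u hu => ?_
      rw [mem_sdiff] at hu
      obtain ⟨h3, h4, h5⟩ := (hmN 0 u).1 hu.1
      have h6 := fun h => hu.2 ((hmN 1 u).2 h)
      have h7 : dep (z u) + 1 = B := by
        by_contra hne
        exact h6 ⟨h3, by omega, h5⟩
      have h8 : dep (z u) - dep (z t) = j + 1 := by omega
      rw [h8] at h5
      exact mem_filter.2 ⟨mem_univ _, by omega, h5⟩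
    have h2' : E w (N 0 \ N 1) univ ≤ (Δ : ℝ) ^ (j + 1) * (b * Dm) := by
      refine h2.trans (mul_le_mul_of_nonneg_right ?_ (mul_nonneg hb0 hDm0))
      exact_mod_cast card_Sub hdep hch (z t) (j + 1)
    have h3 := hbig j (by omega)
    have h6 : (2 * δ) ^ j * E w (N 0 \ N 1) univ ≤
        (2 * δ) ^ j * ((Δ : ℝ) ^ (j + 1) * (b * Dm)) :=
      mul_le_mul_of_nonneg_left h2' (pow_nonneg (by linarith) j)
    have h7 := mul_le_mul_of_nonneg_left h6 (by linarith : 0 ≤ 4 * μ)
    linarith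
  refine ⟨univ \ G2, fun v hv => ?_, fun v hv h1 => (mem_sdiff.1 h1).2 (hup v hv), ?_, ?_⟩
  · rw [mem_sdiff]
    exact ⟨mem_univ _, fun h1 => (mem_sdiff.1 (hG2U h1)).2 (hdown v hv)⟩
  · -- the lower side is good
    intro v hv
    have hv2 := (mem_sdiff.1 hv).2
    by_cases hv1 : v ∈ S1
    · refine (hS1g v hv1).trans (E_mono hw subset_rfl fun u hu => ?_)
      rw [mem_sdiff]
      exact ⟨mem_univ _, fun h1 => (mem_sdiff.1 (hG2U h1)).2 hu⟩
    · obtain ⟨u, hu, hlt⟩ := max_good_deg hw hG2g hG2U hG2m (N := {v})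
        (singleton_subset_iff.2 (mem_sdiff.2 ⟨mem_sdiff.2 ⟨mem_univ _, hv1⟩, hv2⟩))
        (singleton_nonempty v)
      rw [mem_singleton] at hu
      rw [hu] at hlt
      have h1 : E w {v} G2 < δ * E w {v} univ :=
        lt_of_le_of_lt (E_mono hw subset_rfl subset_union_left) hlt
      have h2 := E_split (w := w) {v} G2
      have h3 := E_nonneg hw {v} univ
      have h4 : δ * E w {v} univ ≤ 1 / 4 * E w {v} univ := mul_le_mul_of_nonneg_right hδ1 h3
      linarith
  · rw [sdiff_sdiff_right_self, inf_eq_inter, univ_inter]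
    exact hG2g

end

end Pool.Agent.H89Q
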